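import Pool.Agent.Helper3.T5.Defs

/-!
# T5, block J0, J5: extraction of hits with pairwise different key families
-/

namespace Pool.Agent.Helper98.T5

open Finset Pool.Agent.Helper27.T4 Pool.Agent.Helper22.HW Pool.Agent.Helper22.SL
  Pool.Agent.Helper3.T5

variable {ι κ : Type*} [Fintype ι] [DecidableEq ι] {M : MP ι κ} {Mk : κ → ℕ}

/-- an abstract greedy choice: if every element is in conflict with at most `d` elements then a
set of more than `d * m` elements contains `m + 1` elements without conflicts -/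
theorem exists_indep {α : Type*} (H : Finset α) (cf : α → α → Prop) (hsym : ∀ a b, cf a b → cf b a)
    (d m : ℕ) (hd : ∀ t ∈ H, ∀ F ⊆ H, (∀ h ∈ F, h = t ∨ cf t h) → F.card ≤ d)
    (hc : d * m < H.card) : ∃ T ⊆ H, T.card = m + 1 ∧ ∀ s ∈ T, ∀ t ∈ T, s ≠ t → ¬ cf s t := by
  classical
  induction m with
  | zero =>
    have hne : H.Nonempty := by
      rw [← Finset.card_pos]
      omega
    obtain ⟨a, ha⟩ := hne
    refine ⟨{a}, Finset.singleton_subset_iff.2 ha, Finset.card_singleton a, ?_⟩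
    intro s hs t ht hst
    rw [mem_singleton] at hs ht
    exact absurd (hs.trans ht.symm) hst
  | succ m ih =>
    obtain ⟨T, hT, hTc, hTf⟩ := ih (lt_of_le_of_lt (Nat.mul_le_mul_left d (Nat.le_succ m)) hc)
    have hex : ∃ h ∈ H, ∀ t ∈ T, ¬ (h = t ∨ cf t h) := by
      by_contra hcon
      push Not at hcon
      have h1 : H ⊆ T.biUnion (fun t => H.filter (fun h => h = t ∨ cf t h)) := by
        intro h hh
        obtain ⟨t, ht, htc⟩ := hcon h hh
        rw [mem_biUnion]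
        exact ⟨t, ht, mem_filter.2 ⟨hh, htc⟩⟩
      have h2 : H.card ≤ T.card * d := by
        refine (Finset.card_le_card h1).trans ?_
        refine Finset.card_biUnion_le_card_mul T _ d (fun t ht => ?_)
        exact hd t (hT ht) _ (Finset.filter_subset _ _) (fun h hh => (mem_filter.1 hh).2)
      rw [hTc, mul_comm] at h2
      omega
    obtain ⟨h, hh, hht⟩ := hex
    have hnot : h ∉ T := fun hmem => hht h hmem (Or.inl rfl)
    refine ⟨insert h T, Finset.insert_subset hh hT, ?_, ?_⟩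
    · rw [Finset.card_insert_of_notMem hnot, hTc]
    · intro s hs t ht hst hcf
      rw [mem_insert] at hs ht
      rcases hs with rfl | hs
      · rcases ht with rfl | ht
        · exact hst rfl
        · exact hht t ht (Or.inr (hsym _ _ hcf))
      · rcases ht with rfl | ht
        · exact hht s hs (Or.inr hcf)
        · exact hTf s hs t ht hst hcf

omit [DecidableEq ι] in
open Classical in
/-- the elements of `H` over a set of at most `C` pairs -/
theorem card_over {β : Type*} (H : Finset (((ι → ℕ) × (ι → ℕ)) × β)) (Rl : ℕ)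
    (hR : ∀ T : Finset (((ι → ℕ) × (ι → ℕ)) × β), T ⊆ H →
      (∀ s ∈ T, ∀ t ∈ T, s.1 = t.1) → T.card ≤ Rl)
    (Z : Finset ((ι → ℕ) × (ι → ℕ))) :
    (H.filter (fun h => h.1 ∈ Z)).card ≤ Z.card * Rl := by
  have h1 : H.filter (fun h => h.1 ∈ Z) ⊆ Z.biUnion (fun z => H.filter (fun h => h.1 = z)) := by
    intro h hh
    rw [mem_filter] at hh
    rw [mem_biUnion]
    exact ⟨h.1, hh.2, mem_filter.2 ⟨hh.1, rfl⟩⟩
  refine (Finset.card_le_card h1).trans ?_
  refine Finset.card_biUnion_le_card_mul Z _ Rl (fun z _ => ?_)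
  refine hR _ (Finset.filter_subset _ _) (fun s hs t ht => ?_)
  rw [(mem_filter.1 hs).2, (mem_filter.1 ht).2]

open Classical in
/-- J5: extraction; the degrees are hypotheses -/
theorem exists_free_of_deg (hM : M.Ok Mk) (w : κ → ℕ) (n : ℕ) {β : Type*}
    (hDL : ∀ a : ι → ℕ,
      ((M.prs hM w M.c' n).filter (fun z => ∀ j ∈ M.P, z.1 j = a j)).card ≤ M.C)
    (hDR : ∀ a : ι → ℕ,
      ((M.prs hM w M.c' n).filter (fun z => ∀ j ∈ M.P, z.2 j = a j)).card ≤ M.C)
    (H : Finset (((ι → ℕ) × (ι → ℕ)) × β)) (Rl m : ℕ)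
    (hH : ∀ h ∈ H, h.1 ∈ M.prs hM w M.c' n)
    (hR : ∀ T : Finset (((ι → ℕ) × (ι → ℕ)) × β), T ⊆ H →
      (∀ s ∈ T, ∀ t ∈ T, s.1 = t.1) → T.card ≤ Rl)
    (hc : 2 * (M.C * Rl) * m < H.card) : ∃ T ⊆ H, T.card = m + 1 ∧ M.Free T := by
  have hdeg : ∀ t ∈ H, ∀ F ⊆ H, (∀ h ∈ F, h = t ∨ ((∀ j ∈ M.P, h.1.1 j = t.1.1 j) ∨
      ∀ j ∈ M.P, h.1.2 j = t.1.2 j)) → F.card ≤ 2 * (M.C * Rl) := by
    intro t _ F hF hFc
    set Z1 := (M.prs hM w M.c' n).filter (fun z => ∀ j ∈ M.P, z.1 j = t.1.1 j) with hZ1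
    set Z2 := (M.prs hM w M.c' n).filter (fun z => ∀ j ∈ M.P, z.2 j = t.1.2 j) with hZ2
    have h1 : F ⊆ H.filter (fun h => h.1 ∈ Z1) ∪ H.filter (fun h => h.1 ∈ Z2) := by
      intro h hh
      have hhH := hF hh
      have hp := hH h hhH
      rw [mem_union]
      rcases hFc h hh with rfl | h2 | h2
      · exact Or.inl (mem_filter.2 ⟨hhH, mem_filter.2 ⟨hp, fun _ _ => rfl⟩⟩)
      · exact Or.inl (mem_filter.2 ⟨hhH, mem_filter.2 ⟨hp, h2⟩⟩)
      · exact Or.inr (mem_filter.2 ⟨hhH, mem_filter.2 ⟨hp, h2⟩⟩)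
    calc F.card ≤ (H.filter (fun h => h.1 ∈ Z1) ∪ H.filter (fun h => h.1 ∈ Z2)).card :=
          Finset.card_le_card h1
      _ ≤ (H.filter (fun h => h.1 ∈ Z1)).card + (H.filter (fun h => h.1 ∈ Z2)).card :=
          Finset.card_union_le _ _
      _ ≤ Z1.card * Rl + Z2.card * Rl :=
          Nat.add_le_add (card_over H Rl hR Z1) (card_over H Rl hR Z2)
      _ ≤ M.C * Rl + M.C * Rl :=
          Nat.add_le_add (Nat.mul_le_mul_right _ (hDL t.1.1)) (Nat.mul_le_mul_right _ (hDR t.1.2))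
      _ = 2 * (M.C * Rl) := by ring
  obtain ⟨T, hT, hTc, hTf⟩ := exists_indep H
    (fun t s => (∀ j ∈ M.P, s.1.1 j = t.1.1 j) ∨ ∀ j ∈ M.P, s.1.2 j = t.1.2 j)
    (fun a b hab => by
      rcases hab with h | h
      · exact Or.inl (fun j hj => (h j hj).symm)
      · exact Or.inr (fun j hj => (h j hj).symm))
    (2 * (M.C * Rl)) m hdeg hc
  refine ⟨T, hT, hTc, ?_⟩
  intro t ht s hs hts
  have h := hTf t ht s hs hts
  push Not at h
  obtain ⟨⟨j, hj, h1⟩, j', hj', h2⟩ := h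
  exact ⟨⟨j, hj, fun he => h1 he.symm⟩, j', hj', fun he => h2 he.symm⟩

end Pool.Agent.Helper98.T5
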