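import Pool.Agent.Helper98.T5.Count

/-!
# Crude level 1 block: the two kinds of void patterns
-/

namespace Pool.Agent.Helper98.T5

open Finset Pool.Agent.Helper27.T4 Pool.Agent.Helper25.T5 Pool.Agent.Helper29.T4
open Pool.Agent.Helper98.T4 (Mo okM te me)

variable {ι κ : Type*} [Fintype ι] [DecidableEq ι]

/-- a family whose product is known and has few factorizations -/
theorem void_prod {p : ι → ℕ} {P : ℕ} (hp : PrOK p P) {σ σ' : Sd ι κ} (ha : σ'.a ≤ σ.a)
    {L n : ℕ} {C C' : Finset ι} (f : ι)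
    (hA : f ∉ frs σ C) (hB : f ∉ frs σ' C') (hd : f ∉ C ∨ f ∉ C')
    (hte : te (decide (f ∈ C)) (decide (f ∈ C')) (al p σ.a f) (al p σ'.a f) Mo.prod ≤ 0) :
    VoidC p σ σ' L n (2 * P) C C' := by
  intro T hT hc hP _
  rcases T.eq_empty_or_nonempty with h0 | ⟨y, hy⟩
  · rw [h0]
    exact Nat.zero_le _
  have hyY := hT hy
  have hx := (mem_YY.mp hyY).2.1
  have hx' := (mem_YY.mp hyY).2.2.1
  obtain ⟨N, hN1, hN2⟩ := card_prod hp ha (C := C) (C' := C') hx hx' f
  have hN3 : N ≤ 2 * P := by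
    have h1 : Real.exp (te (decide (f ∈ C)) (decide (f ∈ C')) (al p σ.a f) (al p σ'.a f)
        Mo.prod) ≤ 1 := Real.exp_le_one_iff.mpr hte
    have h2 : (N : ℝ) ≤ ((2 * P : ℕ) : ℝ) := by
      refine hN1.trans ?_
      calc ((2 * P : ℕ) : ℝ) * Real.exp (te (decide (f ∈ C)) (decide (f ∈ C')) (al p σ.a f)
            (al p σ'.a f) Mo.prod) ≤ ((2 * P : ℕ) : ℝ) * 1 :=
            mul_le_mul_of_nonneg_left h1 (Nat.cast_nonneg _)
        _ = _ := mul_one _
    exact_mod_cast h2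
  refine le_trans ?_ hN3
  have hmemU : ∀ z ∈ T, hx1 z f ∈ Uc p σ.a C (hx1 y) f ∧ hx2 z f ∈ Uc p σ'.a C' (hx2 y) f := by
    intro z hz
    have hm := mem_YY.mp (hT hz)
    constructor
    · unfold Uc
      split_ifs with hf
      · rw [Finset.mem_singleton]
        exact ((hc y hy z hz).1 f hf).symm
      · exact mem_Xg hm.2.1 f
    · unfold Uc
      split_ifs with hf
      · rw [Finset.mem_singleton]
        exact ((hc y hy z hz).2.1 f hf).symm
      · exact mem_Xg hm.2.2.1 f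
  have hkey : ∀ z ∈ T, lam p σ'.a f (hx1 z f) + lam p σ'.a f (hx2 z f) +
      (rA p σ f y + rB p σ' n f y) ≡ n [MOD p f ^ σ'.a f] := by
    intro z hz
    have h1 := congA hp (hc y hy z hz) hA
    have h2 := congB hp hyY (hT hz) (hc y hy z hz) hB
    have h3 := h1.of_dvd (pow_dvd_pow (p f) (ha f))
    have h4 := lam_red hp ha (Ug_coprime (Uc_sub hx C f (hmemU z hz).1))
    have h5 := h3.trans (h4.add_right (rA p σ f y))
    have h6 := h2.trans ((h5.add_right (lam p σ'.a f (hx2 z f))).add_right (rB p σ' n f y))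
    have h7 : lam p σ'.a f (hx1 z f) + rA p σ f y + lam p σ'.a f (hx2 z f) + rB p σ' n f y =
        lam p σ'.a f (hx1 z f) + lam p σ'.a f (hx2 z f) + (rA p σ f y + rB p σ' n f y) := by ring
    rw [h7] at h6
    exact h6.symm
  refine le_trans (Finset.card_le_card_of_injOn (fun z : Hit ι => (hx1 z f, hx2 z f)) ?_ ?_)
    (hN2 (lam p σ'.a f (hx1 y f) + lam p σ'.a f (hx2 y f)))
  · intro z hz
    have hz' := Finset.mem_coe.mp hz
    rw [Finset.mem_coe, Finset.mem_filter, Finset.mem_product]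
    refine ⟨hmemU z hz', ?_⟩
    exact Nat.ModEq.add_right_cancel' (rA p σ f y + rB p σ' n f y)
      ((hkey z hz').trans (hkey y hy).symm)
  · intro z hz w hw h
    have h' := Prod.mk.inj h
    rcases hd with h1 | h1
    · exact hP.2.2.1 f h1 hz hw h'.1
    · exact hP.2.2.2 f h1 hz hw h'.2

/-- the element `z` is unique -/
theorem void_z {p : ι → ℕ} {P : ℕ} (hp : PrOK p P) {σ σ' : Sd ι κ} {L n : ℕ} {C C' : Finset ι}
    (G G' : Finset ι) (hdis : Disjoint G G') (hG : ∀ f ∈ G, f ∈ C ∧ f ∉ frs σ C)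
    (hG' : ∀ f ∈ G', f ∈ C' ∧ f ∉ frs σ' C') (N : ℝ) (hN : (L : ℝ) ≤ Real.exp N)
    (h : N ≤ ∑ f ∈ G, al p σ.a f + ∑ f ∈ G', al p σ'.a f) : VoidC p σ σ' L n 2 C C' := by
  classical
  intro T hT hc _ hinj
  rcases T.eq_empty_or_nonempty with h0 | ⟨y, hy⟩
  · rw [h0]
    exact Nat.zero_le _
  have hyY := hT hy
  set e : ι → ℕ := fun f => if f ∈ G then σ.a f else if f ∈ G' then σ'.a f else 0 with he
  have hmain : (T.image hz).card ≤ L / (∏ f, p f ^ e f) + 1 := by
    have hcl := card_classes_le (n + 1 - L) L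
      (fun f => p f ^ e f) (fun _ => hz y) (fun f => pow_pos (hp.prime f).pos _)
      (pw hp.prime hp.inj e)
    have hsub : T.image hz ⊆ (Finset.Ico (n + 1 - L) (n + 1 - L + L)).filter
        (fun z => ∀ f, z ≡ hz y [MOD p f ^ e f]) := ?_
    · refine (Finset.card_le_card hsub).trans ?_
      exact le_trans (le_of_eq (by congr)) hcl
    intro z hz'
    rw [Finset.mem_image] at hz'
    obtain ⟨w, hw, rfl⟩ := hz'
    have hm := mem_YY.mp (hT hw)
    rw [Finset.mem_filter, Finset.mem_Ico]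
    refine ⟨?_, ?_⟩
    · have h1 : hz w ≤ n := hm.1
      have h2 : n < hz w + L := hm.2.2.2
      omega
    · intro f
      show hz w ≡ hz y [MOD p f ^ e f]
      by_cases h1 : f ∈ G
      · have h2 : e f = σ.a f := by
          rw [he]
          simp only [h1, if_true]
        rw [h2]
        have h3 := congA hp (hc y hy w hw) (hG f h1).2
        have h4 := congA hp (hc y hy y hy) (hG f h1).2
        have h5 : hx1 w f = hx1 y f := ((hc y hy w hw).1 f (hG f h1).1).symm
        rw [h5] at h3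
        exact h3.trans h4.symm
      · by_cases h2 : f ∈ G'
        · have h3 : e f = σ'.a f := by
            rw [he]
            simp only [h1, h2, if_true, if_false]
          rw [h3]
          have h4 := congB hp hyY (hT hw) (hc y hy w hw) (hG' f h2).2
          have h5 := congB hp hyY hyY (hc y hy y hy) (hG' f h2).2
          have h6 : hx2 w f = hx2 y f := ((hc y hy w hw).2.1 f (hG' f h2).1).symm
          rw [h6, add_assoc] at h4
          rw [add_assoc] at h5
          exact modEq_of_add h4 h5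
        · have h3 : e f = 0 := by
            rw [he]
            simp only [h1, h2, if_false]
          rw [h3, pow_zero]
          exact Nat.modEq_one
  have hprod : ((∏ f, p f ^ e f : ℕ) : ℝ) =
      Real.exp (∑ f ∈ G, al p σ.a f + ∑ f ∈ G', al p σ'.a f) := by
    have h1 : ∑ f ∈ G, al p σ.a f + ∑ f ∈ G', al p σ'.a f =
        ∑ f, (e f : ℝ) * Real.log (p f) := by
      have h2 : ∑ f ∈ G, al p σ.a f = ∑ f, if f ∈ G then al p σ.a f else 0 := by
        rw [Finset.sum_ite_mem, Finset.univ_inter]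
      have h3 : ∑ f ∈ G', al p σ'.a f = ∑ f, if f ∈ G' then al p σ'.a f else 0 := by
        rw [Finset.sum_ite_mem, Finset.univ_inter]
      rw [h2, h3, ← Finset.sum_add_distrib]
      refine Finset.sum_congr rfl (fun f _ => ?_)
      rw [he]
      by_cases h4 : f ∈ G
      · have h5 : f ∉ G' := fun h5 => Finset.disjoint_left.mp hdis h4 h5
        simp only [h4, h5, if_true, if_false, add_zero]
        rfl
      · by_cases h5 : f ∈ G'
        · simp only [h4, h5, if_true, if_false, zero_add]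
          rfl
        · simp only [h4, h5, if_false, add_zero, Nat.cast_zero, zero_mul]
    rw [h1, Real.exp_sum]
    push_cast
    refine Finset.prod_congr rfl (fun f _ => ?_)
    rw [Real.exp_nat_mul, Real.exp_log (by exact_mod_cast (hp.prime f).pos)]
  have hle : L ≤ ∏ f, p f ^ e f := by
    have h1 : (L : ℝ) ≤ ((∏ f, p f ^ e f : ℕ) : ℝ) := by
      rw [hprod]
      exact hN.trans (Real.exp_le_exp.mpr h)
    exact_mod_cast h1
  have h2 : L / (∏ f, p f ^ e f) ≤ 1 := Nat.div_le_of_le_mul (by rw [mul_one]; exact hle)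
  rw [← Finset.card_image_of_injOn hinj]
  omega

/-- V1: `x f` constant, `x' f` not -/
theorem void1 {p : ι → ℕ} {P : ℕ} (hp : PrOK p P) {σ σ' : Sd ι κ} (ha : σ'.a ≤ σ.a)
    {L n : ℕ} {C C' : Finset ι} (f : ι)
    (hA : f ∉ frs σ C) (hB : f ∉ frs σ' C') (h1 : f ∈ C) (h2 : f ∉ C') :
    VoidC p σ σ' L n (2 * P) C C' := by
  apply void_prod hp ha f hA hB (Or.inr h2)
  simp [te, h1]

/-- V2: `x' f` constant, `x f` not -/
theorem void2 {p : ι → ℕ} {P : ℕ} (hp : PrOK p P) {σ σ' : Sd ι κ} (ha : σ'.a ≤ σ.a)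
    {L n : ℕ} {C C' : Finset ι} (f : ι)
    (hA : f ∉ frs σ C) (hB : f ∉ frs σ' C') (h1 : f ∉ C) (h2 : f ∈ C')
    (h : al p σ.a f ≤ 2 * al p σ'.a f) : VoidC p σ σ' L n (2 * P) C C' := by
  apply void_prod hp ha f hA hB (Or.inl h1)
  simp only [te, h1, h2, decide_true, decide_false, Bool.false_eq_true, if_false, if_true]
  apply max_le le_rfl
  linarith

/-- V3: both distinct, the family is static -/
theorem void3 {p : ι → ℕ} {P : ℕ} (hp : PrOK p P) {σ σ' : Sd ι κ} (ha : σ'.a ≤ σ.a)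
    {L n : ℕ} {C C' : Finset ι} (f : ι)
    (hA : f ∉ frs σ C) (hB : f ∉ frs σ' C') (h1 : f ∉ C) (h2 : f ∉ C')
    (h : σ.a f = σ'.a f) : VoidC p σ σ' L n (2 * P) C C' := by
  apply void_prod hp ha f hA hB (Or.inl h1)
  simp only [te, h1, h2, decide_false, Bool.false_eq_true, if_false]
  unfold al
  rw [h, sub_self, zero_div]

/-- V4: `z` is unique -/
theorem void4 {p : ι → ℕ} {P : ℕ} (hp : PrOK p P) {σ σ' : Sd ι κ} {L n : ℕ} {C C' : Finset ι}
    (N : ℝ) (hN : (L : ℝ) ≤ Real.exp N)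
    (h : N ≤ ∑ f, if f ∈ C ∧ f ∉ frs σ C then al p σ.a f
      else if f ∈ C' ∧ f ∉ frs σ' C' then al p σ'.a f else 0) : VoidC p σ σ' L n 2 C C' := by
  classical
  refine void_z hp (Finset.univ.filter (fun f => f ∈ C ∧ f ∉ frs σ C))
    (Finset.univ.filter (fun f => ¬ (f ∈ C ∧ f ∉ frs σ C) ∧ f ∈ C' ∧ f ∉ frs σ' C'))
    ?_ ?_ ?_ N hN ?_
  · rw [Finset.disjoint_left]
    intro f hf hf'
    rw [Finset.mem_filter] at hf hf'
    exact hf'.2.1 hf.2
  · intro f hf
    exact (Finset.mem_filter.mp hf).2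
  · intro f hf
    exact (Finset.mem_filter.mp hf).2.2
  · refine h.trans (le_of_eq ?_)
    rw [Finset.sum_filter, Finset.sum_filter, ← Finset.sum_add_distrib]
    refine Finset.sum_congr rfl (fun f _ => ?_)
    by_cases h1 : f ∈ C ∧ f ∉ frs σ C
    · rw [if_pos h1, if_pos h1, if_neg (fun h2 => h2.1 h1), add_zero]
    · rw [if_neg h1, if_neg h1, zero_add]
      by_cases h2 : f ∈ C' ∧ f ∉ frs σ' C'
      · rw [if_pos h2, if_pos ⟨h1, h2⟩]
      · rw [if_neg h2, if_neg (fun h3 => h2 h3.2)]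

/-! ## the three families of T4' -/

theorem prOK : PrOK Pool.Agent.Helper5.ET.pr 1000037 where
  prime := Pool.Agent.Helper5.ET.pr_prime
  inj := Pool.Agent.Helper5.ET.pr_inj
  two := Pool.Agent.Helper5.ET.pr_ne_two
  le := Pool.Agent.Helper98.T4.pr_le

theorem KC_le : 2 * KC (Fin 3) 1000037 ≤ Real.exp 146 := by
  have h4 : (2.7182818283 : ℝ) ^ 146 ≤ Real.exp 146 := by
    have h5 := Real.exp_one_gt_d9
    have h6 : Real.exp 146 = Real.exp 1 ^ 146 := by
      rw [← Real.exp_nat_mul]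
      norm_num
    rw [h6]
    exact pow_le_pow_left₀ (by norm_num) h5.le _
  refine le_trans ?_ h4
  unfold KC
  rw [Fintype.card_fin]
  norm_num

/-- a choice of modes with a small exponent makes the pattern rare -/
theorem rareC_of_mode3 {σ σ' : Sd (Fin 3) κ} (ha : σ'.a ≤ σ.a)
    {L : ℕ} {C C' : Finset (Fin 3)} (md : Fin 3 → Mo)
    (hmd : ∀ f, okM (f ∉ frs σ C) (f ∉ frs σ' C') (md f)) (N c : ℝ)
    (hN : (L : ℝ) ≤ Real.exp N)
    (h : 146 + ∑ f, te (decide (f ∈ C)) (decide (f ∈ C')) (al Pool.Agent.Helper5.ET.pr σ.a f)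
        (al Pool.Agent.Helper5.ET.pr σ'.a f) (md f) +
        max 0 (N - ∑ f, me (al Pool.Agent.Helper5.ET.pr σ.a f)
          (al Pool.Agent.Helper5.ET.pr σ'.a f) (md f)) -
        ∑ f ∈ frs σ C, al Pool.Agent.Helper5.ET.pr σ.a f -
        ∑ f ∈ frs σ' C', al Pool.Agent.Helper5.ET.pr σ'.a f ≤ -c) (n : ℕ) :
    RareC Pool.Agent.Helper5.ET.pr σ σ' L n (Real.exp (-c)) C C' :=
  rareC_of_mode prOK ha md hmd 146 N c KC_le hN h n

end Pool.Agent.Helper98.T5
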