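import Pool.Agent.Helper98.T5.Fam

/-!
# Crude level 1 block: the number of hits compatible with a given hit

For every family a mode is chosen; the bound is in exact logarithmic units.
-/

namespace Pool.Agent.Helper98.T5

open Finset Pool.Agent.Helper27.T4 Pool.Agent.Helper25.T5 Pool.Agent.Helper29.T4
open Pool.Agent.Helper98.T4 (Mo okM te me exp_ite_add)

variable {ι κ : Type*} [Fintype ι] [DecidableEq ι]

theorem mem_YY {p : ι → ℕ} {σ σ' : Sd ι κ} {L n : ℕ} {y : Hit ι} :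
    y ∈ YY p σ σ' L n ↔ hz y ≤ n ∧ hx1 y ∈ Xg p σ.a ∧ hx2 y ∈ Xg p σ'.a ∧ n < hz y + L := by
  unfold YY
  rw [Finset.mem_filter, Finset.mem_product, Finset.mem_product, Finset.mem_range,
    Nat.lt_succ_iff]
  tauto

omit [Fintype ι] [DecidableEq ι] in
/-- the reduction of the equality of hash values -/
theorem vl_red {p : ι → ℕ} {P : ℕ} (hp : PrOK p P) {σ : Sd ι κ} {f : ι} {c c' x x' : ℕ}
    (h : vl p σ f c x = vl p σ f c' x') :
    (c : ZMod (p f ^ σ.a f)) - Lg (p f) (σ.a f) x =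
      (c' : ZMod (p f ^ σ.a f)) - Lg (p f) (σ.a f) x' := by
  have : NeZero (p f ^ σ.a f) := ⟨(pow_pos (hp.prime f).pos _).ne'⟩
  exact ZMod.val_injective _ h

/-- the residue belonging to the side of `z` -/
noncomputable def rA (p : ι → ℕ) (σ : Sd ι κ) (f : ι) (y : Hit ι) : ℕ :=
  ((hz y : ZMod (p f ^ σ.a f)) - Lg (p f) (σ.a f) (hx1 y f)).val

/-- the residue belonging to the side of `n - z` -/
noncomputable def rB (p : ι → ℕ) (σ' : Sd ι κ) (n : ℕ) (f : ι) (y : Hit ι) : ℕ :=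
  ((n : ZMod (p f ^ σ'.a f)) - (hz y : ZMod (p f ^ σ'.a f)) -
    Lg (p f) (σ'.a f) (hx2 y f)).val

theorem congA {p : ι → ℕ} {P : ℕ} (hp : PrOK p P) {σ σ' : Sd ι κ} {n : ℕ} {C C' : Finset ι}
    {y z : Hit ι} (h : Cpt p σ σ' n C C' y z) {f : ι} (hf : f ∉ frs σ C) :
    hz z ≡ lam p σ.a f (hx1 z f) + rA p σ f y [MOD p f ^ σ.a f] := by
  have h1 := vl_red hp (h.2.2.1 f hf)
  have : NeZero (p f ^ σ.a f) := ⟨(pow_pos (hp.prime f).pos _).ne'⟩
  rw [← ZMod.natCast_eq_natCast_iff]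
  push_cast
  rw [lam_cast σ.a (hp.prime f)]
  unfold rA
  rw [ZMod.natCast_zmod_val, h1]
  ring

theorem congB {p : ι → ℕ} {P : ℕ} (hp : PrOK p P) {σ σ' : Sd ι κ} {L n : ℕ} {C C' : Finset ι}
    {y z : Hit ι} (hy : y ∈ YY p σ σ' L n) (hz' : z ∈ YY p σ σ' L n)
    (h : Cpt p σ σ' n C C' y z) {f : ι} (hf : f ∉ frs σ' C') :
    n ≡ hz z + lam p σ'.a f (hx2 z f) + rB p σ' n f y [MOD p f ^ σ'.a f] := by
  have h1 := vl_red hp (h.2.2.2 f hf)
  rw [Nat.cast_sub (mem_YY.mp hy).1, Nat.cast_sub (mem_YY.mp hz').1] at h1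
  have : NeZero (p f ^ σ'.a f) := ⟨(pow_pos (hp.prime f).pos _).ne'⟩
  rw [← ZMod.natCast_eq_natCast_iff]
  push_cast
  rw [lam_cast σ'.a (hp.prime f)]
  unfold rB
  rw [ZMod.natCast_zmod_val, h1]
  ring

/-- the local data of the family `f` -/
noncomputable def DD (p : ι → ℕ) (σ σ' : Sd ι κ) (n : ℕ) (C C' : Finset ι) (y : Hit ι) (f : ι) :
    ℕ → Finset (ℕ × ℕ) :=
  Dd (Uc p σ.a C (hx1 y) f) (Uc p σ'.a C' (hx2 y) f) (f ∉ frs σ C) (f ∉ frs σ' C')
    (lam p σ.a f) (lam p σ'.a f) (p f ^ σ.a f) (p f ^ σ'.a f) (rA p σ f y) (rB p σ' n f y) n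

open Classical in
theorem count_loc {p : ι → ℕ} {P : ℕ} (hp : PrOK p P) {σ σ' : Sd ι κ} {L n : ℕ}
    {C C' : Finset ι} {y : Hit ι} (hy : y ∈ YY p σ σ' L n)
    (t k μ : ι → ℕ) (hμ : ∀ f, 0 < μ f) (hcop : Pairwise (Function.onFun Nat.Coprime μ))
    (h : ∀ f, LocOK (DD p σ σ' n C C' y f) (t f) (k f) (μ f)) :
    ((YY p σ σ' L n).filter (Cpt p σ σ' n C C' y)).card ≤
      (∏ f, k f) * (∏ f, t f) * (L / (∏ f, μ f) + 1) := by
  have hloc := card_loc (n + 1 - L) L (DD p σ σ' n C C' y) t k μ hμ hcop h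
  refine le_trans (Finset.card_le_card_of_injOn
    (t := (Finset.Ico (n + 1 - L) (n + 1 - L + L)).sigma
      (fun z => Fintype.piFinset (fun f => DD p σ σ' n C C' y f z)))
    (fun z => (⟨hz z, fun f => (hx1 z f, hx2 z f)⟩ : (_ : ℕ) × (ι → ℕ × ℕ))) ?_ ?_) ?_
  · intro z hz'
    rw [Finset.mem_coe, Finset.mem_filter] at hz'
    obtain ⟨hzY, hzC⟩ := hz'
    have hm := mem_YY.mp hzY
    rw [Finset.mem_coe, Finset.mem_sigma, Finset.mem_Ico, Fintype.mem_piFinset]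
    refine ⟨?_, ?_⟩
    · have h1 : hz z ≤ n := hm.1
      have h2 : n < hz z + L := hm.2.2.2
      show n + 1 - L ≤ hz z ∧ hz z < n + 1 - L + L
      omega
    · intro f
      show (hx1 z f, hx2 z f) ∈ DD p σ σ' n C C' y f (hz z)
      unfold DD
      rw [mem_Dd]
      refine ⟨?_, ?_, fun hf => congA hp hzC hf, fun hf => congB hp hy hzY hzC hf⟩
      · show hx1 z f ∈ Uc p σ.a C (hx1 y) f
        unfold Uc
        split_ifs with hf
        · rw [Finset.mem_singleton]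
          exact (hzC.1 f hf).symm
        · exact mem_Xg hm.2.1 f
      · show hx2 z f ∈ Uc p σ'.a C' (hx2 y) f
        unfold Uc
        split_ifs with hf
        · rw [Finset.mem_singleton]
          exact (hzC.2.1 f hf).symm
        · exact mem_Xg hm.2.2.1 f
  · rintro ⟨z, x, x'⟩ _ ⟨z2, x2, x2'⟩ _ he
    simp only [Sigma.mk.injEq] at he
    obtain ⟨h3, h4⟩ := he
    have h5 := eq_of_heq h4
    have h6 : x = x2 := by
      funext f
      exact (Prod.mk.inj (congrFun h5 f)).1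
    have h7 : x' = x2' := by
      funext f
      exact (Prod.mk.inj (congrFun h5 f)).2
    have h3' : z = z2 := h3
    rw [h3', h6, h7]
  · exact hloc

/-- every allowed mode gives a local bound -/
theorem loc_mode {p : ι → ℕ} {P : ℕ} (hp : PrOK p P) {σ σ' : Sd ι κ} (ha : σ'.a ≤ σ.a)
    {L n : ℕ} {C C' : Finset ι} {y : Hit ι} (hy : y ∈ YY p σ σ' L n) (f : ι) (m : Mo)
    (hm : okM (f ∉ frs σ C) (f ∉ frs σ' C') m) : ∃ t k e : ℕ,
    LocOK (DD p σ σ' n C C' y f) t k (p f ^ e) ∧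
    (t : ℝ) ≤ (2 * P : ℕ) * Real.exp (te (decide (f ∈ C)) (decide (f ∈ C')) (al p σ.a f)
      (al p σ'.a f) m) ∧ k ≤ P * P ∧
    (e : ℝ) * Real.log (p f) = me (al p σ.a f) (al p σ'.a f) m := by
  have hf := hp.prime f
  have hx := (mem_YY.mp hy).2.1
  have hx' := (mem_YY.mp hy).2.2.1
  have hU := Uc_sub hx C f
  have hU' := Uc_sub hx' C' f
  have hcU := card_Uc σ.a C (hx1 y) hf
  have hcU' := card_Uc σ'.a C' (hx2 y) hf
  have hK := fun t => card_fiber hp σ.a hU t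
  have hK' := fun t => card_fiber hp σ'.a hU' t
  have hP1 : 1 ≤ P := hf.pos.trans_le (hp.le f)
  have hPP : P ≤ P * P := Nat.le_mul_of_pos_left P hP1
  have h1P : 1 ≤ P * P := hP1.trans hPP
  have hbig : ∀ z : ℝ, Real.exp z ≤ (2 * P : ℕ) * Real.exp z := fun z => by
    have h1 := Real.exp_pos z
    have h2 : (1 : ℝ) ≤ ((2 * P : ℕ) : ℝ) := by
      have : 1 ≤ 2 * P := by omega
      exact_mod_cast this
    nlinarith
  have hprod : (((Uc p σ.a C (hx1 y) f).card * (Uc p σ'.a C' (hx2 y) f).card : ℕ) : ℝ) ≤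
      Real.exp ((if decide (f ∈ C) then 0 else al p σ.a f / 2) +
        (if decide (f ∈ C') then 0 else al p σ'.a f / 2)) := by
    rw [← exp_ite_add]
    push_cast
    exact mul_le_mul hcU hcU' (Nat.cast_nonneg _) (Real.exp_pos _).le
  cases m with
  | free =>
    refine ⟨_, 1, 0, by rw [pow_zero]; exact loc_free _ _ _ _ _ _ _ _ _ _ _,
      hprod.trans (hbig _), h1P, ?_⟩
    simp [me]
  | mA =>
    refine ⟨_, 1, σ.a f, loc_A _ _ _ _ _ _ _ _ _ _ _ hm, hprod.trans (hbig _), h1P, rfl⟩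
  | mB =>
    refine ⟨_, 1, σ'.a f, loc_B _ _ _ _ _ _ _ _ _ _ _ hm, hprod.trans (hbig _), h1P, rfl⟩
  | afB =>
    have hm1 : f ∉ frs σ' C' := hm
    refine ⟨_, P, 0, by
      rw [pow_zero]
      exact loc_B_after _ _ _ _ _ _ _ _ _ _ _ hm1 _ hK', hcU.trans (hbig _), hPP, ?_⟩
    simp [me]
  | afA =>
    have hm1 : f ∉ frs σ C := hm
    refine ⟨_, P, 0, by
      rw [pow_zero]
      exact loc_A_after _ _ _ _ _ _ _ _ _ _ _ hm1 _ hK, hcU'.trans (hbig _), hPP, ?_⟩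
    simp [me]
  | half =>
    exact ⟨_, P, σ'.a f, loc_half _ _ _ _ _ _ _ _ _ _ _ hm.1 hm.2 _ hK,
      hcU'.trans (hbig _), hPP, rfl⟩
  | aft =>
    refine ⟨1, P * P, 0, by
      rw [pow_zero]
      exact loc_after _ _ _ _ _ _ _ _ _ _ _ hm.1 hm.2 _ hK hK', ?_, le_rfl, ?_⟩
    · simp only [te, Real.exp_zero, mul_one]
      have : 1 ≤ 2 * P := by omega
      exact_mod_cast this
    · simp [me]
  | prod =>
    obtain ⟨N, hN, hN'⟩ := card_prod hp ha (C := C) (C' := C') hx hx' f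
    refine ⟨N, 1, σ.a f, loc_prod _ _ _ _ _ _ _ _ _ _ _ hm.1 hm.2
      (pow_dvd_pow _ (ha f)) ?_ N hN', hN, h1P, rfl⟩
    intro x hxx
    exact lam_red hp ha (Ug_coprime (hU hxx))

/-- the constant of the count -/
noncomputable def KC (ι : Type*) [Fintype ι] (P : ℕ) : ℝ :=
  ((P * P : ℕ) : ℝ) ^ Fintype.card ι * ((2 * P : ℕ) : ℝ) ^ Fintype.card ι

open Classical in
/-- the count for a choice of modes -/
theorem count_mode {p : ι → ℕ} {P : ℕ} (hp : PrOK p P) {σ σ' : Sd ι κ} (ha : σ'.a ≤ σ.a)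
    {L n : ℕ} {C C' : Finset ι} {y : Hit ι} (hy : y ∈ YY p σ σ' L n) (md : ι → Mo)
    (hmd : ∀ f, okM (f ∉ frs σ C) (f ∉ frs σ' C') (md f)) :
    (((YY p σ σ' L n).filter (Cpt p σ σ' n C C' y)).card : ℝ) ≤
      KC ι P * Real.exp (∑ f, te (decide (f ∈ C)) (decide (f ∈ C')) (al p σ.a f)
        (al p σ'.a f) (md f)) *
        (L / Real.exp (∑ f, me (al p σ.a f) (al p σ'.a f) (md f)) + 1) := by
  have h := fun f => loc_mode hp ha hy f (md f) (hmd f)
  choose t k e hloc ht hk he using h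
  have h1 := count_loc hp hy t k (fun f => p f ^ e f) (fun f => pow_pos (hp.prime f).pos _)
    (pw hp.prime hp.inj e) hloc
  have h2 : (∏ f, k f : ℕ) ≤ (P * P) ^ Fintype.card ι := by
    calc (∏ f, k f : ℕ) ≤ ∏ _f : ι, (P * P) := Finset.prod_le_prod' (fun f _ => hk f)
      _ = (P * P) ^ Fintype.card ι := by
        rw [Finset.prod_const, Finset.card_univ]
  have h2' : ((∏ f, k f : ℕ) : ℝ) ≤ ((P * P : ℕ) : ℝ) ^ Fintype.card ι := by exact_mod_cast h2
  have h3 : ((∏ f, t f : ℕ) : ℝ) ≤ ((2 * P : ℕ) : ℝ) ^ Fintype.card ι *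
      Real.exp (∑ f, te (decide (f ∈ C))
      (decide (f ∈ C')) (al p σ.a f) (al p σ'.a f) (md f)) := by
    rw [Nat.cast_prod]
    calc (∏ f, (t f : ℝ)) ≤ ∏ f, (((2 * P : ℕ) : ℝ) * Real.exp (te (decide (f ∈ C))
          (decide (f ∈ C')) (al p σ.a f) (al p σ'.a f) (md f))) :=
          Finset.prod_le_prod (fun f _ => Nat.cast_nonneg _) (fun f _ => ht f)
      _ = _ := by
          rw [Finset.prod_mul_distrib, ← Real.exp_sum, Finset.prod_const, Finset.card_univ]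
  have h4 : ((∏ f, p f ^ e f : ℕ) : ℝ) =
      Real.exp (∑ f, me (al p σ.a f) (al p σ'.a f) (md f)) := by
    rw [Real.exp_sum]
    push_cast
    refine Finset.prod_congr rfl (fun f _ => ?_)
    rw [← he f, Real.exp_nat_mul, Real.exp_log (by exact_mod_cast (hp.prime f).pos)]
  have h5 : ((L / ∏ f, p f ^ e f : ℕ) : ℝ) ≤
      L / Real.exp (∑ f, me (al p σ.a f) (al p σ'.a f) (md f)) := by
    rw [← h4]
    exact Nat.cast_div_le
  calc (((YY p σ σ' L n).filter (Cpt p σ σ' n C C' y)).card : ℝ)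
      ≤ (((∏ f, k f) * (∏ f, t f) * (L / (∏ f, p f ^ e f) + 1) : ℕ) : ℝ) := by
        exact_mod_cast h1
    _ = ((∏ f, k f : ℕ) : ℝ) * ((∏ f, t f : ℕ) : ℝ) *
        (((L / (∏ f, p f ^ e f) : ℕ) : ℝ) + 1) := by
        rw [Nat.cast_mul, Nat.cast_mul, Nat.cast_add, Nat.cast_one]
    _ ≤ _ := by
        apply mul_le_mul _ (by linarith) (by positivity) (by unfold KC; positivity)
        unfold KC
        rw [mul_assoc]
        exact mul_le_mul h2' h3 (Nat.cast_nonneg _) (by positivity)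

theorem Wt_exp {p : ι → ℕ} {P : ℕ} (hp : PrOK p P) (σ σ' : Sd ι κ) (C C' : Finset ι) :
    Wt p σ σ' C C' =
    Real.exp (-((∑ f ∈ frs σ C, al p σ.a f) + ∑ f ∈ frs σ' C', al p σ'.a f)) := by
  unfold Wt
  rw [neg_add, Real.exp_add, ← Finset.sum_neg_distrib, ← Finset.sum_neg_distrib, Real.exp_sum,
    Real.exp_sum]
  congr 1
  · refine Finset.prod_congr rfl (fun f _ => ?_)
    rw [Real.exp_neg, exp_al _ (hp.prime f)]
  · refine Finset.prod_congr rfl (fun f _ => ?_)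
    rw [Real.exp_neg, exp_al _ (hp.prime f)]

open Classical in
/-- a choice of modes with a small exponent makes the pattern rare; `K0` absorbs the constants -/
theorem rareC_of_mode {p : ι → ℕ} {P : ℕ} (hp : PrOK p P) {σ σ' : Sd ι κ} (ha : σ'.a ≤ σ.a)
    {L : ℕ} {C C' : Finset ι} (md : ι → Mo)
    (hmd : ∀ f, okM (f ∉ frs σ C) (f ∉ frs σ' C') (md f)) (K0 N c : ℝ)
    (hK0 : 2 * KC ι P ≤ Real.exp K0) (hN : (L : ℝ) ≤ Real.exp N)
    (h : K0 + ∑ f, te (decide (f ∈ C)) (decide (f ∈ C')) (al p σ.a f)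
        (al p σ'.a f) (md f) + max 0 (N - ∑ f, me (al p σ.a f) (al p σ'.a f) (md f)) -
        ∑ f ∈ frs σ C, al p σ.a f - ∑ f ∈ frs σ' C', al p σ'.a f ≤ -c) (n : ℕ) :
    RareC p σ σ' L n (Real.exp (-c)) C C' := by
  intro y hy
  have h1 := count_mode hp ha hy md hmd
  set T := ∑ f, te (decide (f ∈ C)) (decide (f ∈ C')) (al p σ.a f) (al p σ'.a f) (md f)
  set M := ∑ f, me (al p σ.a f) (al p σ'.a f) (md f)
  rw [Wt_exp hp]
  have hKC : 0 ≤ KC ι P := by
    unfold KC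
    positivity
  have h2 : (L : ℝ) / Real.exp M + 1 ≤ 2 * Real.exp (max 0 (N - M)) := by
    have h3 : (L : ℝ) / Real.exp M ≤ Real.exp (max 0 (N - M)) := by
      rw [div_le_iff₀ (Real.exp_pos _), ← Real.exp_add]
      refine hN.trans (Real.exp_le_exp.mpr ?_)
      have := le_max_right 0 (N - M)
      linarith
    have h4 : (1 : ℝ) ≤ Real.exp (max 0 (N - M)) := Real.one_le_exp (le_max_left _ _)
    linarith
  calc (((YY p σ σ' L n).filter (Cpt p σ σ' n C C' y)).card : ℝ) *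
        Real.exp (-((∑ f ∈ frs σ C, al p σ.a f) + ∑ f ∈ frs σ' C', al p σ'.a f))
      ≤ (KC ι P * Real.exp T * (2 * Real.exp (max 0 (N - M)))) *
        Real.exp (-((∑ f ∈ frs σ C, al p σ.a f) + ∑ f ∈ frs σ' C', al p σ'.a f)) := by
        apply mul_le_mul_of_nonneg_right _ (Real.exp_pos _).le
        refine h1.trans ?_
        exact mul_le_mul_of_nonneg_left h2 (by positivity)
    _ = (2 * KC ι P) * (Real.exp T * Real.exp (max 0 (N - M)) *
        Real.exp (-((∑ f ∈ frs σ C, al p σ.a f) +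
          ∑ f ∈ frs σ' C', al p σ'.a f))) := by ring
    _ ≤ Real.exp K0 * (Real.exp T * Real.exp (max 0 (N - M)) *
        Real.exp (-((∑ f ∈ frs σ C, al p σ.a f) +
          ∑ f ∈ frs σ' C', al p σ'.a f))) :=
        mul_le_mul_of_nonneg_right hK0 (by positivity)
    _ = Real.exp (K0 + T + max 0 (N - M) - ∑ f ∈ frs σ C, al p σ.a f -
          ∑ f ∈ frs σ' C', al p σ'.a f) := by
        rw [← Real.exp_add, ← Real.exp_add, ← Real.exp_add]
        congr 1
        ring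
    _ ≤ Real.exp (-c) := Real.exp_le_exp.mpr h

end Pool.Agent.Helper98.T5
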