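import Pool.Agent.Helper3.T4.Pairs

/-!
# Pairs of numbers, each one or a prime, whose indices have a given sum
-/

namespace Pool.Agent.Helper98.T5

open Finset Pool.Agent.Helper27.T4 Pool.Agent.Helper3.T4

/-- a number has at most two factorizations into two factors which are one or prime -/
theorem card_two_le (S : Finset (ℕ × ℕ)) (m : ℕ)
    (hS : ∀ q ∈ S, (q.1 = 1 ∨ q.1.Prime) ∧ (q.2 = 1 ∨ q.2.Prime) ∧ q.1 * q.2 = m) :
    S.card ≤ 2 := by
  rcases S.eq_empty_or_nonempty with h0 | ⟨⟨x0, y0⟩, h0⟩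
  · rw [h0]
    exact Nat.zero_le _
  · refine (Finset.card_le_card (t := {(x0, y0), (y0, x0)}) ?_).trans Finset.card_le_two
    rintro ⟨x, y⟩ hq
    obtain ⟨hx0, hy0, hm0⟩ := hS _ h0
    obtain ⟨hx, hy, hm⟩ := hS _ hq
    simp only at hx0 hy0 hm0 hx hy hm
    rw [Finset.mem_insert, Finset.mem_singleton]
    have hxy : x * y = x0 * y0 := hm.trans hm0.symm
    rcases hx with h1 | h1
    · rw [h1, one_mul] at hxy
      rcases hx0 with h2 | h2
      · left
        rw [h2, one_mul] at hxy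
        rw [h1, h2, hxy]
      · rcases hy0 with h3 | h3
        · right
          rw [h3, mul_one] at hxy
          rw [h1, h3, hxy]
        · exfalso
          rcases hy with h4 | h4
          · rw [h4] at hxy
            exact absurd (Nat.eq_one_of_mul_eq_one_right hxy.symm) h2.ne_one
          · rw [hxy] at h4
            exact Nat.not_prime_mul h2.ne_one h3.ne_one h4
    · have hd : x ∣ x0 * y0 := ⟨y, hxy.symm⟩
      rcases (Nat.Prime.dvd_mul h1).mp hd with h2 | h2
      · left
        have h3 : x = x0 := by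
          rcases hx0 with h4 | h4
          · rw [h4] at h2
            exact absurd (Nat.dvd_one.mp h2) h1.ne_one
          · exact (Nat.prime_dvd_prime_iff_eq h1 h4).mp h2
        rw [h3] at hxy
        have h5 : 0 < x0 := by
          rw [← h3]
          exact h1.pos
        rw [h3, Nat.eq_of_mul_eq_mul_left h5 hxy]
      · right
        have h3 : x = y0 := by
          rcases hy0 with h4 | h4
          · rw [h4] at h2
            exact absurd (Nat.dvd_one.mp h2) h1.ne_one
          · exact (Nat.prime_dvd_prime_iff_eq h1 h4).mp h2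
        rw [h3, mul_comm x0 y0] at hxy
        have h5 : 0 < y0 := by
          rw [← h3]
          exact h1.pos
        rw [h3, Nat.eq_of_mul_eq_mul_left h5 hxy]

/-- all pairs, one component, growth allowed -/
theorem card_pairs1_le {p : ℕ} (hp : p.Prime) (hp2 : p ≠ 2) (a b : ℕ) (hab : b ≤ a)
    (t : ZMod (p ^ b)) (S : Finset (ℕ × ℕ))
    (hS : ∀ q ∈ S, (q.1 = 1 ∨ q.1.Prime) ∧ (q.2 = 1 ∨ q.2.Prime) ∧ q.1.Coprime p ∧
      q.2.Coprime p ∧ q.1 ^ 2 < p ^ a ∧ q.2 ^ 2 < p ^ b ∧ Lg p b q.1 + Lg p b q.2 = t) :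
    S.card ≤ 2 * ((p - 1) * p ^ ((a - b) / 2)) := by
  classical
  set T := ((Finset.range (p ^ (b + 1))).filter (fun m => m.Coprime p ∧ Lg p b m = t)) ×ˢ
    Finset.range (p ^ ((a - b) / 2)) with hT
  have hTc : T.card ≤ (p - 1) * p ^ ((a - b) / 2) := by
    rw [hT, Finset.card_product, Finset.card_range]
    exact Nat.mul_le_mul_right _ (card_Lg_le hp hp2 b t)
  refine le_trans (Finset.card_le_mul_card_image_of_maps_to
    (f := fun q : ℕ × ℕ => ((q.1 * q.2) % p ^ (b + 1), (q.1 * q.2) / p ^ (b + 1)))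
    (t := T) ?_ 2 ?_) (Nat.mul_le_mul_left 2 hTc)
  · intro q hq
    obtain ⟨_, _, h3, h4, h5, h6, h7⟩ := hS q hq
    have hc : (q.1 * q.2).Coprime p := Nat.Coprime.mul_left h3 h4
    rw [hT, Finset.mem_product]
    simp only [Finset.mem_filter, Finset.mem_range]
    refine ⟨⟨Nat.mod_lt _ (pow_pos hp.pos _), mod_coprime b _ hc, ?_⟩,
      (prod_param hp a b q.1 q.2 hab h5 h6).2⟩
    rw [Lg_mod, Lg_mul hp hp2 b _ _ h3 h4, h7]
  · intro m _
    refine card_two_le _ (m.1 + m.2 * p ^ (b + 1)) ?_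
    intro q hq
    simp only [Finset.mem_filter] at hq
    obtain ⟨hq1, hq2⟩ := hq
    obtain ⟨h1, h2, _, _, h5, h6, _⟩ := hS q hq1
    refine ⟨h1, h2, ?_⟩
    rw [← hq2]
    exact (prod_param hp a b q.1 q.2 hab h5 h6).1

end Pool.Agent.Helper98.T5
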