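import Pool.Agent.Helper25.T5.Gen
import Pool.Agent.Helper98.T5.Pairs
import Pool.Agent.Helper98.T4.Count

/-!
# Crude level 1 block: the lemmas about one family
-/

namespace Pool.Agent.Helper98.T5

open Finset Pool.Agent.Helper27.T4 Pool.Agent.Helper25.T5 Pool.Agent.Helper29.T4
open Pool.Agent.Helper98.T4 (Mo okM te me)

/-- odd distinct primes, bounded by `P` -/
structure PrOK {ι : Type*} (p : ι → ℕ) (P : ℕ) : Prop where
  prime : ∀ f, (p f).Prime
  inj : Function.Injective p
  two : ∀ f, p f ≠ 2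
  le : ∀ f, p f ≤ P

variable {ι : Type*}

/-- the index as a natural number -/
noncomputable def lam (p a : ι → ℕ) (f : ι) (x : ℕ) : ℕ := (Lg (p f) (a f) x).val

/-- the exact size of the modulus of the family `f` -/
noncomputable def al (p a : ι → ℕ) (f : ι) : ℝ := a f * Real.log (p f)

/-- the choices for the coordinate `f`: one if it is constant -/
def Uc [DecidableEq ι] (p a : ι → ℕ) (C : Finset ι) (x : ι → ℕ) (f : ι) : Finset ℕ :=
  if f ∈ C then {x f} else Ug p a f

theorem mem_Ug {p a : ι → ℕ} {f : ι} {y : ℕ} : y ∈ Ug p a f ↔ y = 1 ∨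
    (y < p f ^ a f ∧ y.Prime ∧ y.Coprime (p f) ∧ y ^ 2 < p f ^ a f) := by
  unfold Ug
  rw [Finset.mem_insert, Finset.mem_filter, Finset.mem_range]

theorem Ug_coprime {p a : ι → ℕ} {f : ι} {y : ℕ} (h : y ∈ Ug p a f) : y.Coprime (p f) := by
  rcases mem_Ug.mp h with h1 | h1
  · rw [h1]
    exact Nat.coprime_one_left _
  · exact h1.2.2.1

theorem Ug_prime {p a : ι → ℕ} {f : ι} {y : ℕ} (h : y ∈ Ug p a f) : y = 1 ∨ y.Prime := by
  rcases mem_Ug.mp h with h1 | h1
  · exact Or.inl h1
  · exact Or.inr h1.2.1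

theorem Ug_lt {p a : ι → ℕ} {f : ι} {y : ℕ} (hp : (p f).Prime) (h : y ∈ Ug p a f) :
    y < p f ^ (a f + 1) := by
  rcases mem_Ug.mp h with h1 | h1
  · rw [h1]
    exact Nat.one_lt_pow (Nat.succ_ne_zero _) hp.one_lt
  · exact h1.1.trans_le (Nat.pow_le_pow_right hp.pos (Nat.le_succ _))

theorem Ug_sq {p a : ι → ℕ} {f : ι} {y : ℕ} (hp : (p f).Prime) (ha : a f ≠ 0)
    (h : y ∈ Ug p a f) : y ^ 2 < p f ^ a f := by
  rcases mem_Ug.mp h with h1 | h1
  · rw [h1, one_pow]
    exact Nat.one_lt_pow ha hp.one_lt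
  · exact h1.2.2.2

theorem Ug_zero {p a : ι → ℕ} {f : ι} {y : ℕ} (ha : a f = 0) (h : y ∈ Ug p a f) : y = 1 := by
  rcases mem_Ug.mp h with h1 | h1
  · exact h1
  · have h2 := h1.1
    rw [ha, pow_zero, Nat.lt_one_iff] at h2
    exact absurd h2 h1.2.1.ne_zero

theorem mem_Xg [Fintype ι] [DecidableEq ι] {p a : ι → ℕ} {x : ι → ℕ} (hx : x ∈ Xg p a) (f : ι) :
    x f ∈ Ug p a f := by
  unfold Xg at hx
  rw [Fintype.mem_piFinset] at hx
  exact hx f

theorem Uc_sub [Fintype ι] [DecidableEq ι] {p a : ι → ℕ} {x : ι → ℕ} (hx : x ∈ Xg p a)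
    (C : Finset ι) (f : ι) : Uc p a C x f ⊆ Ug p a f := by
  unfold Uc
  split_ifs
  · intro y hy
    rw [Finset.mem_singleton] at hy
    rw [hy]
    exact mem_Xg hx f
  · exact Finset.Subset.refl _

theorem lam_cast {p : ι → ℕ} (a : ι → ℕ) {f : ι} (hp : (p f).Prime) (x : ℕ) :
    ((lam p a f x : ℕ) : ZMod (p f ^ a f)) = Lg (p f) (a f) x := by
  have : NeZero (p f ^ a f) := ⟨(pow_pos hp.pos _).ne'⟩
  exact ZMod.natCast_zmod_val _

theorem exp_al {p : ι → ℕ} (a : ι → ℕ) {f : ι} (hp : (p f).Prime) :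
    Real.exp (al p a f) = (p f : ℝ) ^ a f := by
  unfold al
  rw [Real.exp_nat_mul, Real.exp_log (by exact_mod_cast hp.pos)]

theorem card_Ug {p : ι → ℕ} (a : ι → ℕ) {f : ι} (hp : (p f).Prime) :
    ((Ug p a f).card : ℝ) ≤ Real.exp (al p a f / 2) := by
  have h1 : (Ug p a f).card ≤ Nat.sqrt (p f ^ a f) := by
    calc (Ug p a f).card ≤ ((range (Nat.sqrt (p f ^ a f) + 1)).erase 0).card := by
          apply Finset.card_le_card
          intro x hx
          rw [Finset.mem_erase, Finset.mem_range, Nat.lt_succ_iff]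
          rcases mem_Ug.mp hx with h1 | h1
          · rw [h1, Nat.le_sqrt]
            exact ⟨one_ne_zero, Nat.one_le_iff_ne_zero.mpr (pow_pos hp.pos _).ne'⟩
          · refine ⟨h1.2.1.ne_zero, ?_⟩
            rw [Nat.le_sqrt, ← pow_two]
            exact h1.2.2.2.le
      _ = Nat.sqrt (p f ^ a f) := by
          rw [Finset.card_erase_of_mem (by simp), Finset.card_range]
          rfl
  have h2 : ((Nat.sqrt (p f ^ a f) : ℕ) : ℝ) ^ 2 ≤ (p f : ℝ) ^ a f := by
    exact_mod_cast Nat.sqrt_le' (p f ^ a f)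
  have h3 : Real.exp (al p a f / 2) ^ 2 = (p f : ℝ) ^ a f := by
    rw [← exp_al a hp, ← Real.exp_nat_mul]
    congr 1
    push_cast
    ring
  rw [← h3] at h2
  have h4 := (sq_le_sq₀ (Nat.cast_nonneg _) (Real.exp_pos _).le).mp h2
  exact (Nat.cast_le.mpr h1).trans h4

theorem card_Uc [DecidableEq ι] {p : ι → ℕ} (a : ι → ℕ) (C : Finset ι) (x : ι → ℕ) {f : ι}
    (hp : (p f).Prime) :
    ((Uc p a C x f).card : ℝ) ≤ Real.exp (if decide (f ∈ C) then 0 else al p a f / 2) := by
  unfold Uc
  split_ifs with h1 h2 h2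
  · simp
  · exact absurd (decide_eq_true h1) h2
  · exact absurd (of_decide_eq_true h2) h1
  · exact card_Ug a hp

theorem card_fiber {p : ι → ℕ} {P : ℕ} (hp : PrOK p P) (a : ι → ℕ) {f : ι} {U : Finset ℕ}
    (hU : U ⊆ Ug p a f) (t : ℕ) :
    (U.filter (fun x => lam p a f x ≡ t [MOD p f ^ a f])).card ≤ P := by
  refine le_trans (Finset.card_le_card ?_) ((card_Lg_le (hp.prime f) (hp.two f)
    (a f) (t : ZMod (p f ^ a f))).trans ((Nat.sub_le _ _).trans (hp.le f)))
  intro x hx
  rw [Finset.mem_filter] at hx ⊢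
  have h1 := hU hx.1
  refine ⟨Finset.mem_range.mpr (Ug_lt (hp.prime f) h1), Ug_coprime h1, ?_⟩
  rw [← lam_cast a (hp.prime f)]
  exact (ZMod.natCast_eq_natCast_iff _ _ _).mpr hx.2

theorem lam_red {p : ι → ℕ} {P : ℕ} (hp : PrOK p P) {a a' : ι → ℕ} (ha : a' ≤ a) {f : ι} {x : ℕ}
    (hc : x.Coprime (p f)) : lam p a f x ≡ lam p a' f x [MOD p f ^ a' f] := by
  have h2 := Lg_red (hp.prime f) (hp.two f) _ _ x hc (ha f)
  rw [← lam_cast a (hp.prime f), map_natCast] at h2
  rw [← ZMod.natCast_eq_natCast_iff, h2, lam_cast a' (hp.prime f)]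

/-- the number of pairs with a given product -/
theorem card_prod [Fintype ι] [DecidableEq ι] {p : ι → ℕ} {P : ℕ} (hp : PrOK p P) {a a' : ι → ℕ}
    (ha : a' ≤ a) {C C' : Finset ι} {x x' : ι → ℕ} (hx : x ∈ Xg p a) (hx' : x' ∈ Xg p a')
    (f : ι) : ∃ N : ℕ, (N : ℝ) ≤ (2 * P : ℕ) * Real.exp (te (decide (f ∈ C)) (decide (f ∈ C'))
      (al p a f) (al p a' f) Mo.prod) ∧
    ∀ t, ((Uc p a C x f ×ˢ Uc p a' C' x' f).filter
      (fun q => lam p a' f q.1 + lam p a' f q.2 ≡ t [MOD p f ^ a' f])).card ≤ N := by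
  have hf := hp.prime f
  have hf2 := hp.two f
  have hle : a' f ≤ a f := ha f
  have hpl := hp.le f
  have hL : 0 < Real.log (p f) := Real.log_pos (by exact_mod_cast hf.one_lt)
  have hP1 : (0 : ℝ) ≤ ((p f - 1 : ℕ) : ℝ) := Nat.cast_nonneg _
  have hsum : ∀ (b c : ℕ) (t : ℕ), b + c ≡ t [MOD p f ^ a' f] →
      ((b : ℕ) : ZMod (p f ^ a' f)) + (c : ℕ) = (t : ZMod (p f ^ a' f)) := by
    intro b c t h
    rw [← Nat.cast_add]
    exact (ZMod.natCast_eq_natCast_iff _ _ _).mpr h
  by_cases h1 : f ∈ C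
  · -- the first coordinate is constant
    refine ⟨P, ?_, ?_⟩
    · simp only [h1, decide_true, te, if_true, Real.exp_zero]
      push_cast
      have : (0 : ℝ) ≤ P := Nat.cast_nonneg _
      linarith
    · intro t
      refine le_trans (Finset.card_le_card_of_injOn (fun q : ℕ × ℕ => q.2)
        (t := (Ug p a' f).filter (fun y =>
          Lg (p f) (a' f) y = (t : ZMod (p f ^ a' f)) - Lg (p f) (a' f) (x f))) ?_ ?_) ?_
      · intro q hq
        rw [Finset.mem_coe, Finset.mem_filter, Finset.mem_product] at hq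
        obtain ⟨⟨hq1, hq2⟩, hq3⟩ := hq
        unfold Uc at hq1
        rw [if_pos h1, Finset.mem_singleton] at hq1
        have hq4 := Uc_sub hx' C' f hq2
        rw [Finset.mem_coe, Finset.mem_filter]
        refine ⟨hq4, ?_⟩
        have h5 := hsum _ _ _ hq3
        rw [lam_cast a' hf, lam_cast a' hf, hq1] at h5
        rw [← h5]
        ring
      · intro q hq r hr h
        rw [Finset.mem_coe, Finset.mem_filter, Finset.mem_product] at hq hr
        have h2 := hq.1.1
        have h3 := hr.1.1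
        unfold Uc at h2 h3
        rw [if_pos h1, Finset.mem_singleton] at h2 h3
        exact Prod.ext (h2.trans h3.symm) h
      · refine le_trans (Finset.card_le_card ?_) ((card_Lg_le hf hf2 (a' f)
          ((t : ZMod (p f ^ a' f)) - Lg (p f) (a' f) (x f))).trans
          ((Nat.sub_le _ _).trans hpl))
        intro y hy
        rw [Finset.mem_filter] at hy ⊢
        exact ⟨Finset.mem_range.mpr (Ug_lt hf hy.1), Ug_coprime hy.1, hy.2⟩
  by_cases h2 : f ∈ C'
  · refine ⟨P * p f ^ ((a f - 2 * a' f) / 2), ?_, ?_⟩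
    · simp only [h1, h2, decide_true, decide_false, te, if_true, Bool.false_eq_true, if_false]
      push_cast
      have h3 : (0 : ℝ) ≤ P := Nat.cast_nonneg _
      refine mul_le_mul (by linarith) ?_ (by positivity) (by positivity)
      rw [← Real.exp_log (show (0 : ℝ) < p f by exact_mod_cast hf.pos), ← Real.exp_nat_mul]
      apply Real.exp_le_exp.mpr
      rcases Nat.lt_or_ge (a f) (2 * a' f) with h4 | h4
      · have h5 : (a f - 2 * a' f) / 2 = 0 := by omega
        rw [h5, Nat.cast_zero, zero_mul]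
        exact le_max_left _ _
      · refine le_trans ?_ (le_max_right _ _)
        have h5 : (((a f - 2 * a' f) / 2 : ℕ) : ℝ) ≤ ((a f : ℝ) - 2 * a' f) / 2 := by
          have h6 : 2 * ((a f - 2 * a' f) / 2) + 2 * a' f ≤ a f := by omega
          have h7 : (2 : ℝ) * (((a f - 2 * a' f) / 2 : ℕ) : ℝ) + 2 * (a' f : ℝ) ≤ a f := by
            exact_mod_cast h6
          linarith
        unfold al
        nlinarith
    · intro t
      refine le_trans (Finset.card_le_card_of_injOn (fun q : ℕ × ℕ => q.1)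
        (t := (Ug p a f).filter (fun y => Lg (p f) (a' f) y =
          (t : ZMod (p f ^ a' f)) - Lg (p f) (a' f) (x' f))) ?_ ?_) ?_
      · intro q hq
        rw [Finset.mem_coe, Finset.mem_filter, Finset.mem_product] at hq
        obtain ⟨⟨hq1, hq2⟩, hq3⟩ := hq
        unfold Uc at hq2
        rw [if_pos h2, Finset.mem_singleton] at hq2
        rw [Finset.mem_coe, Finset.mem_filter]
        refine ⟨Uc_sub hx C f hq1, ?_⟩
        have h5 := hsum _ _ _ hq3
        rw [lam_cast a' hf, lam_cast a' hf, hq2] at h5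
        rw [← h5]
        ring
      · intro q hq r hr h
        rw [Finset.mem_coe, Finset.mem_filter, Finset.mem_product] at hq hr
        have h3 := hq.1.2
        have h4 := hr.1.2
        unfold Uc at h3 h4
        rw [if_pos h2, Finset.mem_singleton] at h3 h4
        exact Prod.ext h (h3.trans h4.symm)
      · by_cases ha0 : a f = 0
        · have h4 : ((Ug p a f).filter (fun y => Lg (p f) (a' f) y =
              (t : ZMod (p f ^ a' f)) - Lg (p f) (a' f) (x' f))).card ≤ 1 := by
            rw [Finset.card_le_one]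
            intro y hy z hz
            rw [Ug_zero ha0 (Finset.mem_filter.mp hy).1, Ug_zero ha0 (Finset.mem_filter.mp hz).1]
          refine h4.trans (Nat.one_le_iff_ne_zero.mpr (Nat.mul_ne_zero ?_ (pow_pos hf.pos _).ne'))
          have := hf.pos
          omega
        · refine le_trans (Pool.Agent.Helper3.T4.card_single_le hf hf2 (a f) (a' f)
            ((t : ZMod (p f ^ a' f)) - Lg (p f) (a' f) (x' f)) _ ?_)
            (Nat.mul_le_mul_right _ ((Nat.sub_le _ _).trans hpl))
          intro y hy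
          rw [Finset.mem_filter] at hy
          exact ⟨Ug_coprime hy.1, Ug_sq hf ha0 hy.1, hy.2⟩
  · by_cases ha0 : a' f = 0
    · -- the second coordinate is one
      refine ⟨(Ug p a f).card, ?_, ?_⟩
      · simp only [h1, h2, decide_false, te, Bool.false_eq_true, if_false]
        have h4 := card_Ug a (f := f) hf
        have h5 : al p a' f = 0 := by
          unfold al
          rw [ha0, Nat.cast_zero, zero_mul]
        rw [h5, sub_zero]
        refine h4.trans ?_
        have h6 : (1 : ℝ) ≤ ((2 * P : ℕ) : ℝ) := by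
          have h7 : 1 ≤ 2 * P := by
            have := hf.pos
            omega
          exact_mod_cast h7
        have h8 := Real.exp_pos (al p a f / 2)
        nlinarith
      · intro t
        refine Finset.card_le_card_of_injOn (fun q : ℕ × ℕ => q.1) ?_ ?_
        · intro q hq
          rw [Finset.mem_coe, Finset.mem_filter, Finset.mem_product] at hq
          exact Finset.mem_coe.mpr (Uc_sub hx C f hq.1.1)
        · intro q hq r hr h
          rw [Finset.mem_coe, Finset.mem_filter, Finset.mem_product] at hq hr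
          refine Prod.ext h ?_
          rw [Ug_zero ha0 (Uc_sub hx' C' f hq.1.2), Ug_zero ha0 (Uc_sub hx' C' f hr.1.2)]
    · have ha1 : a f ≠ 0 := by omega
      refine ⟨2 * (P * p f ^ ((a f - a' f) / 2)), ?_, ?_⟩
      · simp only [h1, h2, decide_false, te, Bool.false_eq_true, if_false]
        push_cast
        rw [← mul_assoc]
        refine mul_le_mul le_rfl ?_ (by positivity) (by positivity)
        rw [← Real.exp_log (show (0 : ℝ) < p f by exact_mod_cast hf.pos), ← Real.exp_nat_mul]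
        apply Real.exp_le_exp.mpr
        have h5 : (((a f - a' f) / 2 : ℕ) : ℝ) ≤ ((a f : ℝ) - a' f) / 2 := by
          have h6 : 2 * ((a f - a' f) / 2) + a' f ≤ a f := by omega
          have h7 : (2 : ℝ) * (((a f - a' f) / 2 : ℕ) : ℝ) + (a' f : ℝ) ≤ a f := by
            exact_mod_cast h6
          linarith
        unfold al
        nlinarith
      · intro t
        refine le_trans (card_pairs1_le hf hf2 (a f) (a' f) hle (t : ZMod (p f ^ a' f)) _ ?_)
          (Nat.mul_le_mul_left 2 (Nat.mul_le_mul_right _ ((Nat.sub_le _ _).trans hpl)))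
        intro q hq
        rw [Finset.mem_filter, Finset.mem_product] at hq
        obtain ⟨⟨hq1, hq2⟩, hq3⟩ := hq
        have hq4 := Uc_sub hx C f hq1
        have hq5 := Uc_sub hx' C' f hq2
        refine ⟨Ug_prime hq4, Ug_prime hq5, Ug_coprime hq4, Ug_coprime hq5, Ug_sq hf ha1 hq4,
          Ug_sq hf ha0 hq5, ?_⟩
        have h5 := hsum _ _ _ hq3
        rwa [lam_cast a' hf, lam_cast a' hf] at h5

end Pool.Agent.Helper98.T5
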