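import Pool.Agent.Helper22.HW.Keys
import Pool.Agent.Helper22.SL.PrG

/-!
# The union bound for tuples of hits, conditional form

The candidates depend only on the keys outside `K1`; a hit forces the values of its fresh keys,
which lie in `K1`.
-/

namespace Pool.Agent.Helper98.T5

open Finset Pool.Agent.Helper29.T4 Pool.Agent.Helper22.HW Pool.Agent.Helper22.SL

variable {κ : Type*} [DecidableEq κ] {Mk : κ → ℕ}

/-- **Tuple bound, conditional form.**  If for every assignment there are at most `ρ * Γ`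
candidates, each with fresh keys of total size `Γ`, then `m + 1` hits with pairwise disjoint fresh
keys exist with probability at most `Γ * ρ ^ (m + 1)`. -/
theorem pr_tuple (hMk : ∀ k, 0 < Mk k) {K K1 : Finset κ} (hK1 : K1 ⊆ K) {δ : Type*}
    (Cand : (κ → ℕ) → Finset δ) (hC : ∀ w w', (∀ k, k ∉ K1 → w k = w' k) → Cand w = Cand w')
    (fk : δ → Finset κ) (hfk : ∀ w, ∀ t ∈ Cand w, fk t ⊆ K1) (vl : δ → κ → ℕ) {ρ Γ : ℝ}
    (hρ : 0 ≤ ρ) (hΓ : 0 < Γ)
    (hprod : ∀ w, ∀ t ∈ Cand w, ∏ k ∈ fk t, ((Mk k : ℝ))⁻¹ ≤ Γ⁻¹)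
    (hcard : ∀ w, ((Cand w).card : ℝ) ≤ ρ * Γ) (m : ℕ) :
    PrG Mk K (fun w => ∃ T : Finset δ, T ⊆ Cand w ∧ T.card = m + 1 ∧
      (∀ t ∈ T, ∀ k ∈ fk t, w k = vl t k) ∧
      (∀ t ∈ T, ∀ s ∈ T, t ≠ s → Disjoint (fk t) (fk s))) (Γ * ρ ^ (m + 1)) := by
  classical
  refine PrG_cond (K0 := K \ K1) sdiff_subset (mul_nonneg hΓ.le (pow_nonneg hρ _)) ?_
  intro q0 _
  have hKK : K \ (K \ K1) = K1 := Finset.sdiff_sdiff_eq_self hK1
  rw [hKK]
  set w0 := ext (K \ K1) q0 with hw0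
  have hCw : ∀ v : K1 → ℕ, Cand (glue (K \ K1) w0 (ext K1 v)) = Cand w0 := by
    intro v
    refine hC _ _ (fun k hk => ?_)
    by_cases h : k ∈ K \ K1
    · rw [glue_mem _ _ _ h]
    · rw [glue_not_mem _ _ _ h, ext_not_mem v hk, hw0, ext_not_mem q0 h]
  have hGk : ∀ (v : K1 → ℕ) (k : κ), k ∈ K1 → glue (K \ K1) w0 (ext K1 v) k = ext K1 v k := by
    intro v k hk
    apply glue_not_mem
    rw [mem_sdiff]
    exact fun h => h.2 hk
  rw [PrG_iff, mul_comm]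
  have hmain := tuple_bound_set (fun k : K1 => Mk k) (fun k => hMk k) (Cand w0)
    (fun t v => ∀ k ∈ fk t, ext K1 v k = vl t k)
    (fun t => Finset.univ.filter (fun k : K1 => (k : κ) ∈ fk t)) (fun t k => vl t k) ?_ ρ ?_ m
    ((OmK Mk K1).filter (fun v => ∃ T : Finset δ,
      T ⊆ Cand (glue (K \ K1) w0 (ext K1 v)) ∧ T.card = m + 1 ∧
      (∀ t ∈ T, ∀ k ∈ fk t, glue (K \ K1) w0 (ext K1 v) k = vl t k) ∧
      (∀ t ∈ T, ∀ s ∈ T, t ≠ s → Disjoint (fk t) (fk s)))) ?_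
  · refine hmain.trans ?_
    refine mul_le_mul_of_nonneg_left ?_ (Nat.cast_nonneg _)
    calc ((Cand w0).card : ℝ) * ρ ^ m ≤ (ρ * Γ) * ρ ^ m :=
          mul_le_mul_of_nonneg_right (hcard w0) (pow_nonneg hρ _)
      _ = Γ * ρ ^ (m + 1) := by rw [pow_succ]; ring
  · intro t _ v _ hhit k hk
    rw [mem_filter] at hk
    have := hhit k hk.2
    rwa [ext_mem v k.2] at this
  · have hw : ∀ t ∈ Cand w0, ∏ k ∈ Finset.univ.filter (fun k : K1 => (k : κ) ∈ fk t),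
        ((Mk (k : κ) : ℝ))⁻¹ ≤ Γ⁻¹ := by
      intro t ht
      refine le_trans (le_of_eq ?_) (hprod w0 t ht)
      rw [← Finset.prod_image (s := Finset.univ.filter (fun k : K1 => (k : κ) ∈ fk t))
        (g := fun k : K1 => (k : κ)) (f := fun k => ((Mk k : ℝ))⁻¹)
        (fun a _ b _ hab => Subtype.ext hab)]
      congr 1
      ext k
      rw [mem_image]
      constructor
      · rintro ⟨k', hk', rfl⟩
        exact (mem_filter.1 hk').2
      · intro hk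
        exact ⟨⟨k, hfk w0 t ht hk⟩, mem_filter.2 ⟨mem_univ _, hk⟩, rfl⟩
    calc ∑ t ∈ Cand w0, ∏ k ∈ Finset.univ.filter (fun k : K1 => (k : κ) ∈ fk t),
          ((Mk (k : κ) : ℝ))⁻¹ ≤ ∑ _t ∈ Cand w0, Γ⁻¹ := Finset.sum_le_sum hw
      _ = (Cand w0).card * Γ⁻¹ := by rw [Finset.sum_const, nsmul_eq_mul]
      _ ≤ (ρ * Γ) * Γ⁻¹ := mul_le_mul_of_nonneg_right (hcard w0) (inv_nonneg.2 hΓ.le)
      _ = ρ := by
          rw [mul_assoc, mul_inv_cancel₀ hΓ.ne', mul_one]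
  · intro v hv
    rw [mem_filter] at hv
    obtain ⟨hv1, T, hT, hTc, hTh, hTd⟩ := hv
    refine ⟨hv1, T, by rw [hCw v] at hT; exact hT, hTc, ?_, ?_⟩
    · intro t ht k hk
      have hk1 : k ∈ K1 := by
        rw [hCw v] at hT
        exact hfk w0 t (hT ht) hk
      rw [← hGk v k hk1]
      exact hTh t ht k hk
    · intro t ht s hs hts
      have hd := hTd t ht s hs hts
      rw [Finset.disjoint_left]
      intro k hk hk'
      exact (Finset.disjoint_left.1 hd (mem_filter.1 hk).2) (mem_filter.1 hk').2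

end Pool.Agent.Helper98.T5
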