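import Pool.Agent.Helper98.T5.SplitDefs
import Pool.Agent.Helper3.T4.Decode

/-!
# T5, a pair of states on both sides of a split: counts
-/

namespace Pool.Agent.Helper98.T5

open Finset Pool.Agent.Helper27.T4 Pool.Agent.Helper22.HW Pool.Agent.Helper22.SL
  Pool.Agent.Helper3.T5 Pool.Agent.Helper3.T4

variable {ι κ : Type*} [Fintype ι] [DecidableEq ι] {P : SP ι κ} {Mk : κ → ℕ}

omit [DecidableEq ι] in
theorem SP.mem_H {w : κ → ℕ} {s : ℕ} {l : Lb ι} :
    l ∈ P.H w s ↔ ∃ c, Gd P w univ univ s (l, c) := by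
  classical
  unfold SP.H
  rw [mem_filter, mem_product, mem_product, mem_product]
  constructor
  · exact fun h => h.2
  · rintro ⟨c, hc⟩
    exact ⟨⟨⟨hc.x, hc.x'⟩, hc.y, hc.y'⟩, c, hc⟩

theorem Gd.cd_eq (hP : P.Ok Mk) {w : κ → ℕ} {J : Finset (Fin 3)} {s : ℕ}
    {d : Lb ι × (ℕ × ℕ × ℕ)} (h : Gd P w univ J s d) : d.2.1 = P.M.cd hP.m w d.1.1.1 := by
  have hc : (d.2.1 : ℕ) ≡ P.M.cd hP.m w d.1.1.1 [MOD NN P.M.p P.M.e] := by
    rw [← ZMod.natCast_eq_natCast_iff, natCast_eq_iff hP.m.prime hP.m.inj]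
    intro i
    exact h.cd hP (mem_univ i)
  have hl := h.lt
  have hl' : P.M.cd hP.m w d.1.1.1 < NN P.M.p P.M.e := cv_lt _ _ _ _
  unfold MP.Ne at hl
  rwa [Nat.ModEq, Nat.mod_eq_of_lt hl, Nat.mod_eq_of_lt hl'] at hc

/-- decoding of the split level -/
theorem static_fiber (hP : P.Ok Mk) (w : κ → ℕ) (s : ℕ) (z0 : (ι → ℕ) × (ι → ℕ))
    (F : Finset (Lb ι)) (hF : ∀ l ∈ F, l ∈ P.H w s ∧ l.1 = z0) : F.card ≤ P.CQ := by
  classical
  have h := card_code_pairs_le hP.prime hP.odd P.z P.z le_rfl rk3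
    (fun i y => ((w (P.key2 z0.1 i y) : ℕ) : ZMod (P.pq i ^ P.z i)))
    (fun i _ => ((w (P.key3 i) : ℕ) : ZMod (P.pq i ^ P.z i)))
    (fun i x y hxy => by
      have := (hP.s z0.1).dep i x y hxy
      have h2 : P.key2 z0.1 i x = P.key2 z0.1 i y := this
      rw [h2])
    (fun _ _ _ _ => rfl)
    (fun i => ((s : ℕ) : ZMod (P.pq i ^ P.z i)) - ((P.M.cd hP.m w z0.1 : ℕ) : ZMod _))
    (F.image (fun l => fun i => (l.2.1 i, l.2.2 i))) ?_
  · have h1 : (F.image (fun l : Lb ι => fun i => (l.2.1 i, l.2.2 i))).card = F.card := by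
      apply Finset.card_image_of_injOn
      intro l hl l' hl' he
      have e1 := (hF l hl).2
      have e2 := (hF l' hl').2
      refine Prod.ext (e1.trans e2.symm) (Prod.ext ?_ ?_)
      · funext i
        exact congrArg Prod.fst (congrFun he i)
      · funext i
        exact congrArg Prod.snd (congrFun he i)
    rw [h1] at h
    refine h.trans (le_of_eq ?_)
    unfold SP.CQ
    refine Finset.prod_congr rfl (fun i _ => ?_)
    rw [Nat.sub_self, Nat.zero_div, pow_zero, mul_one]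
  · intro g hg i
    rw [mem_image] at hg
    obtain ⟨l, hl, rfl⟩ := hg
    obtain ⟨hH, hz⟩ := hF l hl
    obtain ⟨c, hc⟩ := SP.mem_H.1 hH
    have hy := hP.adm _ hc.y i
    have hy' := hP.adm _ hc.y' i
    refine ⟨hy.1, hy'.1, hy.2.1, hy'.2.1, hy.2.2, hy'.2.2, ?_⟩
    have e1 := hc.res2 i (mem_univ i)
    have e2 := hc.resq i
    have e3 := hc.cd_eq hP
    have e4 : ((s : ℕ) : ZMod (P.pq i ^ P.z i)) = ((c.1 : ℕ) : ZMod _) +
        ((c.2.1 : ℕ) : ZMod _) + ((c.2.2 : ℕ) : ZMod _) := by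
      rw [← hc.sum]
      push_cast
      rfl
    have e5 : c.1 = P.M.cd hP.m w z0.1 := by
      rw [← hz]
      exact e3
    simp only at e1 e2 ⊢
    rw [hz] at e1
    rw [← e1, e4, e5, ← e2]
    ring

/-- number of labels over a set of pairs of main vectors -/
theorem over_main (hP : P.Ok Mk) (w : κ → ℕ) (s : ℕ) (Z : Finset ((ι → ℕ) × (ι → ℕ)))
    (F : Finset (Lb ι)) (hF : ∀ l ∈ F, l ∈ P.H w s ∧ l.1 ∈ Z) : F.card ≤ Z.card * P.CQ := by
  classical
  have h1 : F ⊆ Z.biUnion (fun z => F.filter (fun l => l.1 = z)) := by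
    intro l hl
    rw [mem_biUnion]
    exact ⟨l.1, (hF l hl).2, mem_filter.2 ⟨hl, rfl⟩⟩
  refine (Finset.card_le_card h1).trans ?_
  refine Finset.card_biUnion_le_card_mul Z _ P.CQ (fun z _ => ?_)
  refine static_fiber hP w s z _ (fun l hl => ?_)
  rw [mem_filter] at hl
  exact ⟨(hF l hl.1).1, hl.2⟩

theorem H_prs (hP : P.Ok Mk) {w : κ → ℕ} {s : ℕ} {l : Lb ι} (hl : l ∈ P.H w s) :
    l.1 ∈ P.M.prs hP.m w P.M.c' s := by
  obtain ⟨c, hc⟩ := SP.mem_H.1 hl
  exact hc.prs hP hP.m.ce' (fun i hi => absurd (mem_univ i) hi)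

/-- the triples of codes of one label -/
theorem trip_gd (hP : P.Ok Mk) (w : κ → ℕ) (J : Finset (Fin 3)) (s : ℕ) (l : Lb ι)
    (F : Finset (ℕ × ℕ × ℕ)) (hF : ∀ t ∈ F, Gd P w (univ.erase P.M.R) J s (l, t)) :
    (F.card : ℝ) * (P.Q * P.M.q) ≤ (4 * (P.M.Ne' : ℝ) / P.F2 + 2 / (MM P.pq P.z Jᶜ : ℕ)) *
      ((P.M.q : ℝ) * P.M.q * (MM P.pq P.z Jᶜ : ℕ)) := by
  classical
  have hcoM : (NN P.M.p (fx P.M.e {P.M.R})).Coprime P.Q := by
    unfold NN SP.Q
    refine Nat.Coprime.prod_left (fun i _ => Nat.Coprime.prod_right (fun j _ => ?_))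
    exact Nat.Coprime.pow _ _ ((Nat.coprime_primes (hP.m.prime i) (hP.prime j)).2 (hP.ne i j))
  have hcoM' : (NN P.M.p (fx P.M.e' {P.M.R})).Coprime P.Q := by
    unfold NN SP.Q
    refine Nat.Coprime.prod_left (fun i _ => Nat.Coprime.prod_right (fun j _ => ?_))
    exact Nat.Coprime.pow _ _ ((Nat.coprime_primes (hP.m.prime i) (hP.prime j)).2 (hP.ne i j))
  have hB0 : 0 < NN P.M.p (fx P.M.e {P.M.R}) := NN_pos hP.m.prime _
  have hB0' : 0 < NN P.M.p (fx P.M.e' {P.M.R}) * P.Q := Nat.mul_pos (NN_pos hP.m.prime _) hP.posQ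
  have hq : MM P.M.p P.M.e {P.M.R} = P.M.q := by
    unfold MM MP.q
    rw [Finset.prod_singleton]
  refine trip_price (A := P.M.Ne) (A' := P.M.Ne' * P.Q) (B := NN P.M.p (fx P.M.e {P.M.R}))
    (B' := NN P.M.p (fx P.M.e' {P.M.R}) * P.Q) (E := P.F2 * NN P.pq (fx P.z Jᶜ)) (T := s)
    hB0 hB0' (Nat.mul_pos hP.posF (NN_pos hP.prime _)) hP.posQ (MM_pos hP.prime _ _) hP.posF
    ?_ ?_ le_rfl hP.AA ?_ hP.Qk F ?_ ?_
  · refine Nat.le_of_dvd (Nat.lcm_pos hB0 hB0') ?_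
    refine Nat.Coprime.mul_dvd_of_dvd_of_dvd hcoM (Nat.dvd_lcm_left _ _) ?_
    exact (dvd_mul_left _ _).trans (Nat.dvd_lcm_right _ _)
  · rw [← hq, NN_fx_mul]
    exact le_rfl
  · rw [mul_assoc, NN_fx_mul]
    rfl
  · intro t ht
    exact ⟨(hF t ht).lt, (hF t ht).lt', (hF t ht).sum⟩
  · intro t ht t' ht'
    have h1 := hF t ht
    have h2 := hF t' ht'
    refine ⟨?_, ?_, ?_⟩
    · rw [← ZMod.natCast_eq_natCast_iff, natCast_eq_iff hP.m.prime hP.m.inj]
      intro i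
      by_cases hi : i = P.M.R
      · have h0 : fx P.M.e {P.M.R} i = 0 := by simp [fx, hi]
        rw [ZMod.natCast_eq_natCast_iff, h0, pow_zero]
        exact Nat.modEq_one
      · have h0 : fx P.M.e {P.M.R} i = P.M.e i := by simp [fx, hi]
        rw [h0]
        have hm : i ∈ univ.erase P.M.R := mem_erase.2 ⟨hi, mem_univ i⟩
        exact (h1.res i hm).trans (h2.res i hm).symm
    · have hco : P.F2.Coprime (NN P.pq (fx P.z Jᶜ)) := by
        rw [NN]
        exact Nat.Coprime.prod_right (fun i _ => Nat.Coprime.pow_right _ (hP.copF i))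
      refine (Nat.modEq_and_modEq_iff_modEq_mul hco).1 ⟨?_, ?_⟩
      · exact ((Nat.modEq_zero_iff_dvd).2 h1.dvd).trans ((Nat.modEq_zero_iff_dvd).2 h2.dvd).symm
      · rw [← ZMod.natCast_eq_natCast_iff, natCast_eq_iff hP.prime hP.inj]
        intro j
        by_cases hj : j ∈ J
        · have h0 : fx P.z Jᶜ j = P.z j := by simp [fx, hj]
          rw [h0]
          exact (h1.res2 j hj).trans (h2.res2 j hj).symm
        · have h0 : fx P.z Jᶜ j = 0 := by simp [fx, hj]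
          rw [ZMod.natCast_eq_natCast_iff, h0, pow_zero]
          exact Nat.modEq_one
    · refine (Nat.modEq_and_modEq_iff_modEq_mul hcoM').1 ⟨?_, ?_⟩
      · rw [← ZMod.natCast_eq_natCast_iff, natCast_eq_iff hP.m.prime hP.m.inj]
        intro i
        by_cases hi : i = P.M.R
        · have h0 : fx P.M.e' {P.M.R} i = 0 := by simp [fx, hi]
          rw [ZMod.natCast_eq_natCast_iff, h0, pow_zero]
          exact Nat.modEq_one
        · have h0 : fx P.M.e' {P.M.R} i = P.M.e' i := by simp [fx, hi]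
          rw [h0]
          have hm : i ∈ univ.erase P.M.R := mem_erase.2 ⟨hi, mem_univ i⟩
          exact (h1.res' i hm).trans (h2.res' i hm).symm
      · unfold SP.Q
        rw [← ZMod.natCast_eq_natCast_iff, natCast_eq_iff hP.prime hP.inj]
        intro j
        exact (h1.resq j).trans (h2.resq j).symm

/-- the number of candidates: `cM` pairs of main vectors, `cY` pairs of vectors of the split
level -/
theorem card_cand (hP : P.Ok Mk) (w : κ → ℕ) (J : Finset (Fin 3)) (s : ℕ)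
    (F : Finset (Lb ι × (ℕ × ℕ × ℕ))) (Z : Finset ((ι → ℕ) × (ι → ℕ)))
    (YY : Finset ((Fin 3 → ℕ) × (Fin 3 → ℕ)))
    (hF : ∀ d ∈ F, Gd P w (univ.erase P.M.R) J s d ∧ d.1.1 ∈ Z ∧ d.1.2 ∈ YY) :
    (F.card : ℝ) * (P.Q * P.M.q) ≤ (Z.card * YY.card) *
      ((4 * (P.M.Ne' : ℝ) / P.F2 + 2 / (MM P.pq P.z Jᶜ : ℕ)) *
      ((P.M.q : ℝ) * P.M.q * (MM P.pq P.z Jᶜ : ℕ))) := by
  classical
  set τ : ℝ := (4 * (P.M.Ne' : ℝ) / P.F2 + 2 / (MM P.pq P.z Jᶜ : ℕ)) *
      ((P.M.q : ℝ) * P.M.q * (MM P.pq P.z Jᶜ : ℕ)) with hτ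
  have hτ0 : 0 ≤ τ := by positivity
  have h1 : (F.card : ℝ) * (P.Q * P.M.q) = ∑ l ∈ F.image Prod.fst,
      (((F.filter (fun d => d.1 = l)).card : ℝ) * (P.Q * P.M.q)) := by
    rw [← Finset.sum_mul]
    congr 1
    exact_mod_cast Finset.card_eq_sum_card_image Prod.fst F
  have h2 : ∀ l ∈ F.image Prod.fst,
      (((F.filter (fun d => d.1 = l)).card : ℝ) * (P.Q * P.M.q)) ≤ τ := by
    intro l _
    have h3 : (F.filter (fun d => d.1 = l)).card =
        ((F.filter (fun d => d.1 = l)).image Prod.snd).card := by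
      symm
      apply Finset.card_image_of_injOn
      intro d hd d' hd' he
      rw [mem_coe, mem_filter] at hd hd'
      exact Prod.ext (hd.2.trans hd'.2.symm) he
    rw [h3]
    refine trip_gd hP w J s l _ (fun t ht => ?_)
    rw [mem_image] at ht
    obtain ⟨d, hd, rfl⟩ := ht
    rw [mem_filter] at hd
    have h4 := (hF d hd.1).1
    have h5 : (l, d.2) = d := Prod.ext hd.2.symm rfl
    rw [h5]
    exact h4
  have h3 : ((F.image Prod.fst).card : ℝ) ≤ Z.card * YY.card := by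
    have h4 : (F.image Prod.fst).card ≤ (Z ×ˢ YY).card := by
      apply Finset.card_le_card
      intro l hl
      rw [mem_image] at hl
      obtain ⟨d, hd, rfl⟩ := hl
      exact mem_product.2 ⟨(hF d hd).2.1, (hF d hd).2.2⟩
    rw [Finset.card_product] at h4
    exact_mod_cast h4
  rw [h1]
  calc ∑ l ∈ F.image Prod.fst, (((F.filter (fun d => d.1 = l)).card : ℝ) * (P.Q * P.M.q))
      ≤ ∑ _l ∈ F.image Prod.fst, τ := Finset.sum_le_sum h2
    _ = (F.image Prod.fst).card * τ := by rw [Finset.sum_const, nsmul_eq_mul]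
    _ ≤ (Z.card * YY.card) * τ := mul_le_mul_of_nonneg_right h3 hτ0

end Pool.Agent.Helper98.T5
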