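import Pool.Agent.Helper22.HW.Price

/-!
# T5, pairs across a split: three codes with a given sum

`c` is the code of the main families of the upper state, `e` the code of the static level which has
just been split off, `c'` the joint code of the lower state.
-/

namespace Pool.Agent.Helper98.T5

open Finset Pool.Agent.Helper22.HW

/-- triples in fixed classes with a given sum -/
theorem trip_sum_card {A A' B B' E T : ℕ} (hB : 0 < B) (hB' : 0 < B')
    (F : Finset (ℕ × ℕ × ℕ))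
    (hA : ∀ t ∈ F, t.1 < A ∧ t.2.2 < A' ∧ t.1 + t.2.1 + t.2.2 = T)
    (h : ∀ t ∈ F, ∀ s ∈ F, t.1 ≡ s.1 [MOD B] ∧ t.2.1 ≡ s.2.1 [MOD E] ∧
      t.2.2 ≡ s.2.2 [MOD B']) :
    F.card ≤ ((A + A') / E + 1) * (min A A' / Nat.lcm B B' + 1) := by
  classical
  refine (Finset.card_le_mul_card_image (f := fun t : ℕ × ℕ × ℕ => t.1 + t.2.2) F
    (min A A' / Nat.lcm B B' + 1) ?_).trans ?_
  · intro u hu
    rw [← Finset.card_image_of_injOn (f := fun t : ℕ × ℕ × ℕ => (t.1, t.2.2)) ?_]
    · refine pair_sum_card (T := u) hB hB' _ ?_ ?_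
      · intro q hq
        rw [mem_image] at hq
        obtain ⟨t, ht, rfl⟩ := hq
        rw [mem_filter] at ht
        obtain ⟨h1, h2, -⟩ := hA t ht.1
        exact ⟨h1, h2, ht.2⟩
      · intro q hq r hr
        rw [mem_image] at hq hr
        obtain ⟨t, ht, rfl⟩ := hq
        obtain ⟨s, hs, rfl⟩ := hr
        rw [mem_filter] at ht hs
        obtain ⟨h1, -, h3⟩ := h t ht.1 s hs.1
        exact ⟨h1, h3⟩
    · intro t ht s hs hts
      rw [mem_coe, mem_filter] at ht hs
      obtain ⟨-, -, e1⟩ := hA t ht.1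
      obtain ⟨-, -, e2⟩ := hA s hs.1
      obtain ⟨h1, h2⟩ := Prod.mk.inj hts
      have h3 : t.2.1 = s.2.1 := by omega
      exact Prod.ext h1 (Prod.ext h3 h2)
  · rw [mul_comm]
    apply Nat.mul_le_mul_right
    apply class_card (L := E)
    · intro x hx
      rw [mem_image] at hx
      obtain ⟨t, ht, rfl⟩ := hx
      obtain ⟨h1, h2, -⟩ := hA t ht
      show t.1 + t.2.2 < A + A'
      omega
    · intro x hx y hy
      rw [mem_image] at hx hy
      obtain ⟨t, ht, rfl⟩ := hx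
      obtain ⟨s, hs, rfl⟩ := hy
      obtain ⟨-, -, e1⟩ := hA t ht
      obtain ⟨-, -, e2⟩ := hA s hs
      obtain ⟨-, h2, -⟩ := h t ht s hs
      have h3 : (t.1 + t.2.2) + t.2.1 = (s.1 + s.2.2) + s.2.1 := by omega
      have h4 : (t.1 + t.2.2) + t.2.1 ≡ (s.1 + s.2.2) + t.2.1 [MOD E] := by
        rw [h3]
        exact Nat.ModEq.add_left _ h2.symm
      exact Nat.ModEq.add_right_cancel' _ h4

/-- **Price of a hit across a split.**  `u` is the modulus of the fresh family of the two main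
codes, `q` the modulus of the fresh family of the static level, `Q` the modulus of this level,
`F2` its front, `F'` the front of the joint code.  The number of admissible triples, times `Q`
(the number of pairs of vectors of the static level), divided by the fresh moduli `u * u * q` and
multiplied by `u` (the number of values of the fresh family), is at most `4 F' / F2 + 2 / q`. -/
theorem trip_price {A A' B B' E T F2 F' Q q u : ℕ} (hB : 0 < B) (hB' : 0 < B') (hE : 0 < E)
    (hQ : 0 < Q) (hq : 0 < q) (hF2 : 0 < F2)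
    (hlcm : B * Q ≤ Nat.lcm B B') (hAB : A ≤ B * u) (hA' : A' ≤ F' * Q) (hAA : A ≤ A')
    (hEq : E * q = F2 * Q) (hQu : Q ≤ u)
    (F : Finset (ℕ × ℕ × ℕ))
    (hA : ∀ t ∈ F, t.1 < A ∧ t.2.2 < A' ∧ t.1 + t.2.1 + t.2.2 = T)
    (h : ∀ t ∈ F, ∀ s ∈ F, t.1 ≡ s.1 [MOD B] ∧ t.2.1 ≡ s.2.1 [MOD E] ∧
      t.2.2 ≡ s.2.2 [MOD B']) :
    (F.card : ℝ) * (Q * u) ≤ (4 * (F' : ℝ) / F2 + 2 / q) * ((u : ℝ) * u * q) := by
  have h0 := trip_sum_card hB hB' F hA h
  have hl : 0 < Nat.lcm B B' := Nat.lcm_pos hB hB'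
  have hBr : (0 : ℝ) < B := by exact_mod_cast hB
  have hQr : (0 : ℝ) < Q := by exact_mod_cast hQ
  have hqr : (0 : ℝ) < q := by exact_mod_cast hq
  have hEr : (0 : ℝ) < E := by exact_mod_cast hE
  have hFr : (0 : ℝ) < F2 := by exact_mod_cast hF2
  have hur : (0 : ℝ) ≤ u := Nat.cast_nonneg _
  have hQu' : (Q : ℝ) ≤ u := by exact_mod_cast hQu
  -- first factor
  have h1 : (((A + A') / E + 1 : ℕ) : ℝ) ≤ 2 * F' * q / F2 + 1 := by
    push_cast
    have h2 : (((A + A') / E : ℕ) : ℝ) ≤ ((A + A' : ℕ) : ℝ) / E := Nat.cast_div_le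
    have h3 : ((A + A' : ℕ) : ℝ) ≤ 2 * F' * Q := by
      have h4 : A + A' ≤ 2 * (F' * Q) := by omega
      have h5 : ((A + A' : ℕ) : ℝ) ≤ ((2 * (F' * Q) : ℕ) : ℝ) := by exact_mod_cast h4
      refine h5.trans (le_of_eq ?_)
      push_cast
      ring
    have h4 : ((A + A' : ℕ) : ℝ) / E ≤ 2 * F' * q / F2 := by
      rw [div_le_div_iff₀ hEr hFr]
      have h5 : (E : ℝ) * q = F2 * Q := by exact_mod_cast hEq
      calc ((A + A' : ℕ) : ℝ) * F2 ≤ (2 * F' * Q) * F2 :=
            mul_le_mul_of_nonneg_right h3 hFr.le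
        _ = 2 * F' * (F2 * Q) := by ring
        _ = 2 * F' * (E * q) := by rw [h5]
        _ = 2 * F' * q * E := by ring
    push_cast at h2 h4
    linarith
  -- second factor
  have h2 : ((min A A' / Nat.lcm B B' + 1 : ℕ) : ℝ) * Q ≤ 2 * u := by
    have h3 : min A A' / Nat.lcm B B' * Q ≤ u := by
      have h4 : min A A' ≤ B * u := (min_le_left _ _).trans hAB
      have h5 : B * (min A A' / Nat.lcm B B' * Q) ≤ B * u := by
        calc B * (min A A' / Nat.lcm B B' * Q) = (B * Q) * (min A A' / Nat.lcm B B') := by ring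
          _ ≤ Nat.lcm B B' * (min A A' / Nat.lcm B B') := Nat.mul_le_mul_right _ hlcm
          _ ≤ min A A' := Nat.mul_div_le _ _
          _ ≤ B * u := h4
      exact Nat.le_of_mul_le_mul_left h5 hB
    have h6 : (min A A' / Nat.lcm B B' + 1) * Q ≤ 2 * u := by
      rw [Nat.add_mul, Nat.one_mul]
      omega
    exact_mod_cast h6
  have h3 : (F.card : ℝ) ≤ (((A + A') / E + 1 : ℕ) : ℝ) *
      ((min A A' / Nat.lcm B B' + 1 : ℕ) : ℝ) := by exact_mod_cast h0
  have hF'r : (0 : ℝ) ≤ F' := Nat.cast_nonneg _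
  calc (F.card : ℝ) * (Q * u)
      ≤ ((((A + A') / E + 1 : ℕ) : ℝ) * ((min A A' / Nat.lcm B B' + 1 : ℕ) : ℝ)) * (Q * u) :=
        mul_le_mul_of_nonneg_right h3 (by positivity)
    _ = (((A + A') / E + 1 : ℕ) : ℝ) *
        (((min A A' / Nat.lcm B B' + 1 : ℕ) : ℝ) * Q) * u := by ring
    _ ≤ (2 * F' * q / F2 + 1) * (2 * u) * u := by
        apply mul_le_mul_of_nonneg_right _ hur
        exact mul_le_mul h1 h2 (by positivity) (by positivity)
    _ = (4 * (F' : ℝ) / F2 + 2 / q) * ((u : ℝ) * u * q) := by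
        field_simp
        ring

end Pool.Agent.Helper98.T5
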