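import Pool.Agent.Helper3.T5.Defs
import Pool.Agent.Helper22.SL.Defs
import Pool.Agent.Helper98.T5.Trip
import Pool.Agent.Helper98.T5.PrTuple
import Pool.Agent.Helper98.T5.ExFree

/-!
# T5, a pair of states on both sides of a split: definitions

The upper state has the main code `c` (front `Ne`) and the code `e` of the level which has just
been split off (front `F2`, three families hashed in the order 0, 1, 2); the lower state has the
joint code `c' < Ne' * Q`, whose residues modulo the primes of the split level are unhashed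
(constant shifts).
-/

namespace Pool.Agent.Helper98.T5

open Finset Pool.Agent.Helper27.T4 Pool.Agent.Helper22.HW Pool.Agent.Helper22.SL
  Pool.Agent.Helper3.T5

/-- a pair of states on both sides of a split -/
structure SP (ι κ : Type*) where
  /-- the main level -/
  M : MP ι κ
  /-- primes of the split level -/
  pq : Fin 3 → ℕ
  /-- exponents of the split level -/
  z : Fin 3 → ℕ
  /-- front of the split level in the upper state -/
  F2 : ℕ
  /-- keys of the split level in the upper state; they may depend on the main vector (outer key) -/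
  key2 : (ι → ℕ) → Fin 3 → (Fin 3 → ℕ) → κ
  /-- keys of the constant shifts of the split level in the lower state -/
  key3 : Fin 3 → κ
  /-- admissible vectors of the split level -/
  Y : Finset (Fin 3 → ℕ)

/-- modulus of the split level -/
def SP.Q {ι κ : Type*} (P : SP ι κ) : ℕ := NN P.pq P.z

/-- the split level as a side, for the main vector `x` -/
def SP.S {ι κ : Type*} (P : SP ι κ) (x : ι → ℕ) : Side P.pq κ := ⟨P.F2, P.z, P.z, P.key2 x⟩

/-- decoding constant of the split level -/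
def SP.CQ {ι κ : Type*} (P : SP ι κ) : ℕ := ∏ i, (2 * (P.pq i - 1))

variable {ι κ : Type*} [Fintype ι] [DecidableEq ι]

/-- requirements -/
structure SP.Ok (P : SP ι κ) (Mk : κ → ℕ) : Prop where
  m : P.M.Ok Mk
  prime : ∀ i, (P.pq i).Prime
  odd : ∀ i, P.pq i ≠ 2
  inj : Function.Injective P.pq
  s : ∀ x, (P.S x).Ok rk3 Mk
  sinj : ∀ x x' i i' y y', P.key2 x i y = P.key2 x' i' y' → i = i' ∧
    ∀ j, rk3 j < rk3 i → y j = y' j
  adm : Adm P.pq P.z P.Y
  /-- the primes of the two levels are different -/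
  ne : ∀ i j, P.M.p i ≠ P.pq j
  /-- the keys of the two levels are different -/
  dis : ∀ x0 i y j x, P.key2 x0 i y ≠ P.M.key j x ∧ P.key2 x0 i y ≠ P.M.key' j x
  /-- the constant shifts are given by other keys -/
  dis3 : ∀ k x i y, P.key3 k ≠ P.key2 x i y ∧ P.key3 k ≠ P.M.key P.M.R x ∧
    P.key3 k ≠ P.M.key' P.M.R x
  /-- the front of the lower state divides the front of the split level -/
  NF : P.M.Ne' ∣ P.F2
  /-- the fresh main family is larger than the split level -/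
  Qk : P.Q ≤ P.M.q
  /-- the range of the joint code is larger than the range of the main code -/
  AA : P.M.Ne ≤ P.M.Ne' * P.Q

/-- a label: two main vectors, two vectors of the split level -/
abbrev Lb (ι : Type*) : Type _ := ((ι → ℕ) × (ι → ℕ)) × ((Fin 3 → ℕ) × (Fin 3 → ℕ))

/-- the label `d.1` with the codes `d.2`; the components `I` of the two main codes and `J` of the
code of the split level are those given by the keys `w`; the sum is `s` -/
structure Gd (P : SP ι κ) (w : κ → ℕ) (I : Finset ι) (J : Finset (Fin 3)) (s : ℕ)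
    (d : Lb ι × (ℕ × ℕ × ℕ)) : Prop where
  x : d.1.1.1 ∈ P.M.X
  x' : d.1.1.2 ∈ P.M.X'
  y : d.1.2.1 ∈ P.Y
  y' : d.1.2.2 ∈ P.Y
  lt : d.2.1 < P.M.Ne
  lt2 : d.2.2.1 < P.F2 * P.Q
  lt' : d.2.2.2 < P.M.Ne' * P.Q
  dvd : P.F2 ∣ d.2.2.1
  res : ∀ i ∈ I, ((d.2.1 : ℕ) : ZMod (P.M.p i ^ P.M.e i)) =
    Lg (P.M.p i) (P.M.e i) (d.1.1.1 i) + P.M.ρ w i d.1.1.1
  res' : ∀ i ∈ I, ((d.2.2.2 : ℕ) : ZMod (P.M.p i ^ P.M.e' i)) =
    Lg (P.M.p i) (P.M.e' i) (d.1.1.2 i) + P.M.ρ' w i d.1.1.2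
  res2 : ∀ j ∈ J, ((d.2.2.1 : ℕ) : ZMod (P.pq j ^ P.z j)) =
    Lg (P.pq j) (P.z j) (d.1.2.1 j) +
      ((w (P.key2 d.1.1.1 j d.1.2.1) : ℕ) : ZMod (P.pq j ^ P.z j))
  resq : ∀ j, ((d.2.2.2 : ℕ) : ZMod (P.pq j ^ P.z j)) = Lg (P.pq j) (P.z j) (d.1.2.2 j) +
    ((w (P.key3 j) : ℕ) : ZMod (P.pq j ^ P.z j))
  sum : d.2.1 + d.2.2.1 + d.2.2.2 = s

/-- all labels with all codes -/
def SP.box (P : SP ι κ) : Finset (Lb ι × (ℕ × ℕ × ℕ)) :=
  ((P.M.X ×ˢ P.M.X') ×ˢ (P.Y ×ˢ P.Y)) ×ˢ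
    (range P.M.Ne ×ˢ (range (P.F2 * P.Q) ×ˢ range (P.M.Ne' * P.Q)))

omit [DecidableEq ι] in
theorem Gd.mem_box {P : SP ι κ} {w : κ → ℕ} {I : Finset ι} {J : Finset (Fin 3)} {s : ℕ}
    {d : Lb ι × (ℕ × ℕ × ℕ)} (h : Gd P w I J s d) : d ∈ P.box := by
  unfold SP.box
  simp only [mem_product, mem_range]
  exact ⟨⟨⟨h.x, h.x'⟩, h.y, h.y'⟩, h.lt, h.lt2, h.lt'⟩

/-- the labels whose codes have the sum `s` -/
noncomputable def SP.H (P : SP ι κ) (w : κ → ℕ) (s : ℕ) : Finset (Lb ι) :=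
  open Classical in
  ((P.M.X ×ˢ P.M.X') ×ˢ (P.Y ×ˢ P.Y)).filter (fun l => ∃ c, Gd P w univ univ s (l, c))

variable {P : SP ι κ} {Mk : κ → ℕ}

theorem SP.Ok.posQ (hP : P.Ok Mk) : 0 < P.Q := NN_pos hP.prime _

theorem SP.Ok.posF (hP : P.Ok Mk) : 0 < P.F2 := (hP.s 0).pos

theorem SP.Ok.copF (hP : P.Ok Mk) (i : Fin 3) : P.F2.Coprime (P.pq i) := (hP.s 0).cop i

/-- the main code agrees with `cd` -/
theorem Gd.cd (hP : P.Ok Mk) {w : κ → ℕ} {I : Finset ι} {J : Finset (Fin 3)} {s : ℕ}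
    {d : Lb ι × (ℕ × ℕ × ℕ)} (h : Gd P w I J s d) {i : ι} (hi : i ∈ I) :
    ((d.2.1 : ℕ) : ZMod (P.M.p i ^ P.M.e i)) = (P.M.cd hP.m w d.1.1.1 : ℕ) := by
  rw [h.res i hi]
  unfold MP.cd
  rw [cv_cast_comp hP.m.prime hP.m.inj]

theorem Gd.cd' (hP : P.Ok Mk) {w : κ → ℕ} {I : Finset ι} {J : Finset (Fin 3)} {s : ℕ}
    {d : Lb ι × (ℕ × ℕ × ℕ)} (h : Gd P w I J s d) {i : ι} (hi : i ∈ I) :
    ((d.2.2.2 : ℕ) : ZMod (P.M.p i ^ P.M.e' i)) = (P.M.cd' hP.m w d.1.1.2 : ℕ) := by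
  rw [h.res' i hi]
  unfold MP.cd'
  rw [cv_cast_comp hP.m.prime hP.m.inj]

/-- the main vectors form a pair of the main level -/
theorem Gd.prs (hP : P.Ok Mk) {w : κ → ℕ} {I : Finset ι} {J : Finset (Fin 3)} {s : ℕ}
    {d : Lb ι × (ℕ × ℕ × ℕ)} (h : Gd P w I J s d) {b : ι → ℕ} (hb : ∀ i, b i ≤ P.M.e' i)
    (hI : ∀ i ∉ I, b i = 0) : d.1.1 ∈ P.M.prs hP.m w b s := by
  classical
  unfold MP.prs
  rw [mem_filter, mem_product]
  refine ⟨⟨h.x, h.x'⟩, fun i => ?_⟩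
  by_cases hi : i ∈ I
  · have h1 := (ZMod.natCast_eq_natCast_iff _ _ _).1 (h.cd hP hi)
    have h2 := (ZMod.natCast_eq_natCast_iff _ _ _).1 (h.cd' hP hi)
    have h1' := h1.of_dvd (pow_dvd_pow (P.M.p i) ((hb i).trans (hP.m.ee i)))
    have h2' := h2.of_dvd (pow_dvd_pow (P.M.p i) (hb i))
    have h3 : d.2.2.1 ≡ 0 [MOD P.M.p i ^ b i] := by
      rw [Nat.modEq_zero_iff_dvd]
      exact (pow_dvd_pow (P.M.p i) (hb i)).trans ((pow_dvd_NN P.M.p P.M.e' i).trans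
        (hP.NF.trans h.dvd))
    have h4 : d.2.1 + d.2.2.1 + d.2.2.2 ≡
        P.M.cd hP.m w d.1.1.1 + 0 + P.M.cd' hP.m w d.1.1.2 [MOD P.M.p i ^ b i] :=
      (h1'.add h3).add h2'
    rw [h.sum, Nat.add_zero] at h4
    exact h4.symm
  · rw [hI i hi, pow_zero]
    exact Nat.modEq_one

/-- the codes are determined by the label -/
theorem Gd.uniq (hP : P.Ok Mk) {w : κ → ℕ} {s s' : ℕ}
    {d d' : Lb ι × (ℕ × ℕ × ℕ)} (h : Gd P w univ univ s d) (h' : Gd P w univ univ s' d')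
    (he : d.1 = d'.1) : d = d' := by
  have e1 : d.2.1 = d'.2.1 := by
    have hc : (d.2.1 : ℕ) ≡ d'.2.1 [MOD NN P.M.p P.M.e] := by
      rw [← ZMod.natCast_eq_natCast_iff, natCast_eq_iff hP.m.prime hP.m.inj]
      intro i
      rw [h.res i (mem_univ i), h'.res i (mem_univ i), he]
    have hl := h.lt
    have hl' := h'.lt
    unfold MP.Ne at hl hl'
    rwa [Nat.ModEq, Nat.mod_eq_of_lt hl, Nat.mod_eq_of_lt hl'] at hc
  have e2 : d.2.2.1 = d'.2.2.1 := by
    refine eq_of_casts hP.prime hP.inj hP.copF P.z h.lt2 h'.lt2 h.dvd h'.dvd (fun j => ?_)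
    rw [h.res2 j (mem_univ j), h'.res2 j (mem_univ j), he]
  have hco : (NN P.M.p P.M.e').Coprime (NN P.pq P.z) := by
    unfold NN
    refine Nat.Coprime.prod_left (fun i _ => Nat.Coprime.prod_right (fun j _ => ?_))
    exact Nat.Coprime.pow _ _ ((Nat.coprime_primes (hP.m.prime i) (hP.prime j)).2 (hP.ne i j))
  have e3 : d.2.2.2 = d'.2.2.2 := by
    have hc1 : (d.2.2.2 : ℕ) ≡ d'.2.2.2 [MOD NN P.M.p P.M.e'] := by
      rw [← ZMod.natCast_eq_natCast_iff, natCast_eq_iff hP.m.prime hP.m.inj]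
      intro i
      rw [h.res' i (mem_univ i), h'.res' i (mem_univ i), he]
    have hc2 : (d.2.2.2 : ℕ) ≡ d'.2.2.2 [MOD NN P.pq P.z] := by
      rw [← ZMod.natCast_eq_natCast_iff, natCast_eq_iff hP.prime hP.inj]
      intro i
      rw [h.resq i, h'.resq i, he]
    have hc := (Nat.modEq_and_modEq_iff_modEq_mul hco).1 ⟨hc1, hc2⟩
    have hl := h.lt'
    have hl' := h'.lt'
    unfold MP.Ne' SP.Q at hl hl'
    rwa [Nat.ModEq, Nat.mod_eq_of_lt hl, Nat.mod_eq_of_lt hl'] at hc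
  exact Prod.ext he (Prod.ext e1 (Prod.ext e2 e3))

end Pool.Agent.Helper98.T5
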