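import Pool.Agent.Helper98.T5.SplitMult
import Pool.Agent.Helper18.T5.J1
import Pool.Agent.Helper79.T5.J2

/-!
# T5, a pair of states on both sides of a split: multiplicity, with J1 and J2 inserted
-/

namespace Pool.Agent.Helper98.T5

open Finset Pool.Agent.Helper27.T4 Pool.Agent.Helper22.HW Pool.Agent.Helper22.SL
  Pool.Agent.Helper3.T5 Pool.Agent.Helper3.T4

set_option linter.unusedSectionVars false

variable {ι κ : Type*} [Fintype ι] [DecidableEq ι] [DecidableEq κ] {P : SP ι κ} {Mk : κ → ℕ}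

/-- **Multiplicity across a split**, final form. -/
theorem mult_split_fin (hP : P.Ok Mk) (hS : P.M.St) (hMk : ∀ k, 0 < Mk k) {K : Finset κ}
    (hK : ∀ x ∈ P.M.X, P.M.key P.M.R x ∈ K) (hK' : ∀ x ∈ P.M.X', P.M.key' P.M.R x ∈ K)
    (hK2 : ∀ x ∈ P.M.X, ∀ y ∈ P.Y, P.key2 x 2 y ∈ K) {ρ1 ρ2 : ℝ} (hρ1 : 0 ≤ ρ1) (hρ2 : 0 ≤ ρ2)
    (h1 : P.M.C * P.M.Lam * (Real.sqrt (P.pq 2 ^ P.z 2 : ℕ) / Real.sqrt P.Q) *
      (4 * (P.M.Ne' : ℝ) / P.F2 + 2) ≤ ρ1)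
    (h2 : P.M.C * P.M.Lam * (4 * (P.M.Ne' : ℝ) / P.F2 + 2 / (P.pq 2 ^ P.z 2 : ℕ)) ≤ ρ2)
    (m1 m : ℕ) :
    PrG Mk K (fun w => ∃ s, 2 * (P.M.C * P.CQ) * (m1 + 1) * m < (P.H w s).card)
      ((P.M.Ne + P.F2 * P.Q + P.M.Ne' * P.Q : ℕ) *
        ((P.pq 0 ^ P.z 0 * P.pq 1 ^ P.z 1 : ℕ) * (((P.M.q : ℝ) * P.M.q) * ρ1 ^ (m1 + 1)) +
        ((P.M.q : ℝ) * P.M.q * (P.pq 2 ^ P.z 2 : ℕ)) * ρ2 ^ (m + 1))) := by
  classical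
  refine mult_split hP hMk (fun hM w b hb n => Pool.Agent.Helper18.T5.base_count hM w b hb n)
    (fun hM w n a => ⟨?_, ?_⟩) hK hK' hK2 hρ1 hρ2 h1 h2 m1 m
  · exact Pool.Agent.Helper79.T5.deg_left hM hS w n a
  · exact Pool.Agent.Helper79.T5.deg_right hM hS w n a

end Pool.Agent.Helper98.T5
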