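import Pool.Agent.Helper98.T5.SplitPr

/-!
# T5, a pair of states on both sides of a split: multiplicity of the sums of the three codes
-/

namespace Pool.Agent.Helper98.T5

open Finset Pool.Agent.Helper27.T4 Pool.Agent.Helper22.HW Pool.Agent.Helper22.SL
  Pool.Agent.Helper3.T5 Pool.Agent.Helper3.T4

variable {ι κ : Type*} [Fintype ι] [DecidableEq ι] {P : SP ι κ} {Mk : κ → ℕ}

/-- the statement J1 (`base_count`) of block J0 -/
def BaseCount (M : MP ι κ) (Mk : κ → ℕ) : Prop :=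
  ∀ (hM : M.Ok Mk) (w : κ → ℕ) (b : ι → ℕ), (∀ i, b i ≤ M.e' i) → ∀ n,
    (M.prs hM w b n).card ≤ M.C * ∏ i, M.p i ^ ((M.c i + M.c' i - 2 * b i) / 2)

open Classical in
/-- the statements J2a, J2b (`deg_left`, `deg_right`) of block J0 -/
def Degs (M : MP ι κ) (Mk : κ → ℕ) : Prop :=
  ∀ (hM : M.Ok Mk) (w : κ → ℕ) (n : ℕ) (a : ι → ℕ),
    ((M.prs hM w M.c' n).filter (fun z => ∀ j ∈ M.P, z.1 j = a j)).card ≤ M.C ∧
    ((M.prs hM w M.c' n).filter (fun z => ∀ j ∈ M.P, z.2 j = a j)).card ≤ M.C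

/-- number of pairs of main vectors of the candidates -/
theorem card_Z (hP : P.Ok Mk) (hB : BaseCount P.M Mk) (w : κ → ℕ) (s : ℕ) :
    ((P.M.prs hP.m w (fun i => if i = P.M.R then 0 else P.M.e' i) s).card : ℝ) ≤
      P.M.C * P.M.Lam * P.M.q := by
  have h := hB hP.m w (fun i => if i = P.M.R then 0 else P.M.e' i) (fun i => by
    by_cases hi : i = P.M.R
    · simp [hi]
    · simp [hi]) s
  have h1 : ∏ i, P.M.p i ^ ((P.M.c i + P.M.c' i - 2 * (if i = P.M.R then 0 else P.M.e' i)) / 2)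
      = P.M.q * P.M.Lam := by
    rw [← Finset.mul_prod_erase univ _ (mem_univ P.M.R)]
    unfold MP.q MP.Lam
    congr 1
    · rw [if_pos rfl]
      have e1 := hP.m.statR
      have e2 := hP.m.ce P.M.R
      have e3 := hP.m.cc P.M.R
      congr 1
      omega
    · refine Finset.prod_congr rfl (fun i hi => ?_)
      rw [if_neg (mem_erase.1 hi).1]
  rw [h1] at h
  calc ((P.M.prs hP.m w (fun i => if i = P.M.R then 0 else P.M.e' i) s).card : ℝ)
      ≤ ((P.M.C * (P.M.q * P.M.Lam) : ℕ) : ℝ) := by exact_mod_cast h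
    _ = _ := by push_cast; ring

theorem card_Y (hP : P.Ok Mk) : ((P.Y.card : ℕ) : ℝ) ≤ Real.sqrt P.Q := by
  have h := card_adm hP.adm univ P.Y (fun y hy => hy) (fun y _ y' _ j hj =>
    absurd (mem_univ j) hj)
  apply Real.le_sqrt_of_sq_le
  have h2 : MM P.pq P.z univ = P.Q := rfl
  rw [h2] at h
  exact_mod_cast h

theorem card_Yab (hP : P.Ok Mk) (a b : ℕ) :
    (((P.Y.filter (fun y => y 0 = a ∧ y 1 = b)).card : ℕ) : ℝ) ≤
      Real.sqrt (P.pq 2 ^ P.z 2 : ℕ) := by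
  have h := card_adm hP.adm {2} (P.Y.filter (fun y => y 0 = a ∧ y 1 = b))
    (fun y hy => (mem_filter.1 hy).1) (fun y hy y' hy' j hj => by
      have e1 := (mem_filter.1 hy).2
      have e2 := (mem_filter.1 hy').2
      rw [mem_singleton] at hj
      fin_cases j
      · exact e1.1.trans e2.1.symm
      · exact e1.2.trans e2.2.symm
      · exact absurd rfl hj)
  apply Real.le_sqrt_of_sq_le
  unfold MM at h
  rw [Finset.prod_singleton] at h
  exact_mod_cast h

theorem compl01 : (({0, 1} : Finset (Fin 3))ᶜ) = {2} := by decide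

theorem compl_univ3 : ((univ : Finset (Fin 3))ᶜ) = ∅ := by decide

/-- the candidates with arbitrary vectors of the split level -/
theorem card_cand2 (hP : P.Ok Mk) (hB : BaseCount P.M Mk) {ρ : ℝ}
    (hρ : P.M.C * P.M.Lam * (4 * (P.M.Ne' : ℝ) / P.F2 + 2 / (P.pq 2 ^ P.z 2 : ℕ)) ≤ ρ)
    (w : κ → ℕ) (s : ℕ) :
    ((P.cand w {0, 1} s (fun _ => True)).card : ℝ) ≤
      ρ * ((P.M.q : ℝ) * P.M.q * (MM P.pq P.z ({0, 1} : Finset (Fin 3))ᶜ : ℕ)) := by
  classical
  have hq0 : (0 : ℝ) < P.M.q := by exact_mod_cast pow_pos (hP.m.prime _).pos _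
  have hQ0 : (0 : ℝ) < P.Q := by exact_mod_cast hP.posQ
  have h := card_cand hP w {0, 1} s (P.cand w {0, 1} s (fun _ => True))
    (P.M.prs hP.m w (fun i => if i = P.M.R then 0 else P.M.e' i) s) (P.Y ×ˢ P.Y) (by
      intro d hd
      have hg := (mem_cand hd).1
      refine ⟨hg, ?_, mem_product.2 ⟨hg.y, hg.y'⟩⟩
      refine hg.prs hP (fun i => ?_) (fun i hi => ?_)
      · by_cases hi : i = P.M.R
        · simp [hi]
        · simp [hi]
      · have : i = P.M.R := by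
          by_contra hne
          exact hi (mem_erase.2 ⟨hne, mem_univ i⟩)
        simp only [this, if_true])
  have hYY : (((P.Y ×ˢ P.Y).card : ℕ) : ℝ) ≤ P.Q := by
    rw [Finset.card_product]
    push_cast
    have h1 := card_Y hP
    calc ((P.Y.card : ℕ) : ℝ) * (P.Y.card : ℕ) ≤ Real.sqrt P.Q * Real.sqrt P.Q :=
          mul_le_mul h1 h1 (Nat.cast_nonneg _) (Real.sqrt_nonneg _)
      _ = P.Q := Real.mul_self_sqrt hQ0.le
  have hZ := card_Z hP hB w s
  have hMM : (MM P.pq P.z ({0, 1} : Finset (Fin 3))ᶜ : ℕ) = P.pq 2 ^ P.z 2 := by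
    rw [compl01, MM, Finset.prod_singleton]
  rw [hMM] at h ⊢
  set τ : ℝ := (4 * (P.M.Ne' : ℝ) / P.F2 + 2 / (P.pq 2 ^ P.z 2 : ℕ)) with hτ
  have hτ0 : 0 ≤ τ := by positivity
  set Γ : ℝ := (P.M.q : ℝ) * P.M.q * (P.pq 2 ^ P.z 2 : ℕ) with hΓ
  have hΓ0 : 0 ≤ Γ := by positivity
  have h2 : ((P.cand w {0, 1} s (fun _ => True)).card : ℝ) * (P.Q * P.M.q) ≤
      (P.M.C * P.M.Lam * τ * Γ) * (P.Q * P.M.q) := by
    calc ((P.cand w {0, 1} s (fun _ => True)).card : ℝ) * (P.Q * P.M.q)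
        ≤ _ := h
      _ ≤ ((P.M.C * P.M.Lam * P.M.q) * P.Q) * (τ * Γ) := by
          apply mul_le_mul_of_nonneg_right _ (by positivity)
          exact mul_le_mul hZ hYY (Nat.cast_nonneg _) (by positivity)
      _ = _ := by ring
  have h3 := le_of_mul_le_mul_right h2 (by positivity)
  exact h3.trans (mul_le_mul_of_nonneg_right hρ hΓ0)

/-- the candidates with given families 0 and 1 of the vector of the upper state -/
theorem card_cand1 (hP : P.Ok Mk) (hB : BaseCount P.M Mk) {ρ : ℝ}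
    (hρ : P.M.C * P.M.Lam * (Real.sqrt (P.pq 2 ^ P.z 2 : ℕ) / Real.sqrt P.Q) *
      (4 * (P.M.Ne' : ℝ) / P.F2 + 2) ≤ ρ) (a b : ℕ) (w : κ → ℕ) (s : ℕ) :
    ((P.cand w univ s (fun y => y 0 = a ∧ y 1 = b)).card : ℝ) ≤
      ρ * ((P.M.q : ℝ) * P.M.q * (MM P.pq P.z (univ : Finset (Fin 3))ᶜ : ℕ)) := by
  classical
  have hq0 : (0 : ℝ) < P.M.q := by exact_mod_cast pow_pos (hP.m.prime _).pos _
  have hQ0 : (0 : ℝ) < P.Q := by exact_mod_cast hP.posQ
  have h := card_cand hP w univ s (P.cand w univ s (fun y => y 0 = a ∧ y 1 = b))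
    (P.M.prs hP.m w (fun i => if i = P.M.R then 0 else P.M.e' i) s)
    ((P.Y.filter (fun y => y 0 = a ∧ y 1 = b)) ×ˢ P.Y) (by
      intro d hd
      have hg := mem_cand hd
      refine ⟨hg.1, ?_, mem_product.2 ⟨mem_filter.2 ⟨hg.1.y, hg.2⟩, hg.1.y'⟩⟩
      refine hg.1.prs hP (fun i => ?_) (fun i hi => ?_)
      · by_cases hi : i = P.M.R
        · simp [hi]
        · simp [hi]
      · have : i = P.M.R := by
          by_contra hne
          exact hi (mem_erase.2 ⟨hne, mem_univ i⟩)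
        simp only [this, if_true])
  have hYY : ((((P.Y.filter (fun y => y 0 = a ∧ y 1 = b)) ×ˢ P.Y).card : ℕ) : ℝ) ≤
      Real.sqrt (P.pq 2 ^ P.z 2 : ℕ) * Real.sqrt P.Q := by
    rw [Finset.card_product]
    push_cast
    have h1 := card_Y hP
    have h2 := card_Yab hP a b
    push_cast at h2
    exact mul_le_mul h2 h1 (Nat.cast_nonneg _) (Real.sqrt_nonneg _)
  have hZ := card_Z hP hB w s
  have hMM : (MM P.pq P.z (univ : Finset (Fin 3))ᶜ : ℕ) = 1 := by
    rw [compl_univ3, MM, Finset.prod_empty]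
  rw [hMM] at h ⊢
  simp only [Nat.cast_one, div_one, mul_one] at h ⊢
  set τ : ℝ := (4 * (P.M.Ne' : ℝ) / P.F2 + 2) with hτ
  have hτ0 : 0 ≤ τ := by positivity
  set σ2 : ℝ := Real.sqrt (P.pq 2 ^ P.z 2 : ℕ) with hσ2
  have hσ20 : 0 ≤ σ2 := Real.sqrt_nonneg _
  have hσQ : 0 < Real.sqrt (P.Q : ℝ) := Real.sqrt_pos.2 hQ0
  have h2 : ((P.cand w univ s (fun y => y 0 = a ∧ y 1 = b)).card : ℝ) * (P.Q * P.M.q) ≤
      (P.M.C * P.M.Lam * (σ2 / Real.sqrt P.Q) * τ * ((P.M.q : ℝ) * P.M.q)) *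
        (P.Q * P.M.q) := by
    calc ((P.cand w univ s (fun y => y 0 = a ∧ y 1 = b)).card : ℝ) * (P.Q * P.M.q)
        ≤ _ := h
      _ ≤ ((P.M.C * P.M.Lam * P.M.q) * (σ2 * Real.sqrt P.Q)) *
          (τ * ((P.M.q : ℝ) * P.M.q)) := by
          apply mul_le_mul_of_nonneg_right _ (by positivity)
          exact mul_le_mul hZ hYY (Nat.cast_nonneg _) (by positivity)
      _ = _ := by
          have h5 : Real.sqrt (P.Q : ℝ) = (1 / Real.sqrt P.Q) * P.Q := by
            rw [one_div, inv_mul_eq_div, eq_div_iff hσQ.ne']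
            exact Real.mul_self_sqrt hQ0.le
          calc ((P.M.C * P.M.Lam * P.M.q) * (σ2 * Real.sqrt P.Q)) *
              (τ * ((P.M.q : ℝ) * P.M.q))
              = ((P.M.C * P.M.Lam * P.M.q) * (σ2 * ((1 / Real.sqrt P.Q) * P.Q))) *
                (τ * ((P.M.q : ℝ) * P.M.q)) := by rw [← h5]
            _ = _ := by ring
  have h3 := le_of_mul_le_mul_right h2 (by positivity)
  exact h3.trans (mul_le_mul_of_nonneg_right hρ (by positivity))

variable [DecidableEq κ]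

/-- **Multiplicity across a split.** -/
theorem mult_split (hP : P.Ok Mk) (hMk : ∀ k, 0 < Mk k) (hB : BaseCount P.M Mk)
    (hD : Degs P.M Mk) {K : Finset κ} (hK : ∀ x ∈ P.M.X, P.M.key P.M.R x ∈ K)
    (hK' : ∀ x ∈ P.M.X', P.M.key' P.M.R x ∈ K) (hK2 : ∀ x ∈ P.M.X, ∀ y ∈ P.Y, P.key2 x 2 y ∈ K)
    {ρ1 ρ2 : ℝ} (hρ1 : 0 ≤ ρ1) (hρ2 : 0 ≤ ρ2)
    (h1 : P.M.C * P.M.Lam * (Real.sqrt (P.pq 2 ^ P.z 2 : ℕ) / Real.sqrt P.Q) *
      (4 * (P.M.Ne' : ℝ) / P.F2 + 2) ≤ ρ1)
    (h2 : P.M.C * P.M.Lam * (4 * (P.M.Ne' : ℝ) / P.F2 + 2 / (P.pq 2 ^ P.z 2 : ℕ)) ≤ ρ2)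
    (m1 m : ℕ) :
    PrG Mk K (fun w => ∃ s, 2 * (P.M.C * P.CQ) * (m1 + 1) * m < (P.H w s).card)
      ((P.M.Ne + P.F2 * P.Q + P.M.Ne' * P.Q : ℕ) *
        ((P.pq 0 ^ P.z 0 * P.pq 1 ^ P.z 1 : ℕ) * (((P.M.q : ℝ) * P.M.q) * ρ1 ^ (m1 + 1)) +
        ((P.M.q : ℝ) * P.M.q * (P.pq 2 ^ P.z 2 : ℕ)) * ρ2 ^ (m + 1))) := by
  classical
  have hK1 : P.K1 univ ⊆ K := by
    intro k hk
    unfold SP.K1 at hk
    rw [compl_univ3, product_empty, product_empty, image_empty, union_empty, mem_union,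
      mem_image, mem_image] at hk
    rcases hk with ⟨x, hx, rfl⟩ | ⟨x, hx, rfl⟩
    · exact hK x hx
    · exact hK' x hx
  have hK2' : P.K1 {0, 1} ⊆ K := by
    intro k hk
    unfold SP.K1 at hk
    rw [compl01, mem_union, mem_union, mem_image, mem_image, mem_image] at hk
    rcases hk with (⟨x, hx, rfl⟩ | ⟨x, hx, rfl⟩) | ⟨⟨x, y, i⟩, hy, rfl⟩
    · exact hK x hx
    · exact hK' x hx
    · rw [mem_product, mem_product, mem_singleton] at hy
      obtain ⟨hx1, hy1, rfl⟩ := hy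
      exact hK2 x hx1 y hy1
  have hMM1 : (MM P.pq P.z (univ : Finset (Fin 3))ᶜ : ℕ) = 1 := by
    rw [compl_univ3, MM, Finset.prod_empty]
  have hMM2 : (MM P.pq P.z ({0, 1} : Finset (Fin 3))ᶜ : ℕ) = P.pq 2 ^ P.z 2 := by
    rw [compl01, MM, Finset.prod_singleton]
  -- the two bad events for given `s`
  have hE1 : ∀ s a b, _ := fun s a b =>
    pr_event hP hMk univ hK1 s (fun y => y 0 = a ∧ y 1 = b) hρ1
      (fun w => card_cand1 hP hB h1 a b w s) m1
  have hE2 : ∀ s, _ := fun s =>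
    pr_event hP hMk {0, 1} hK2' s (fun _ => True) hρ2 (fun w => card_cand2 hP hB h2 w s) m
  have hU := PrG_exists (K := K) (Mk := Mk)
    (range (P.M.Ne + P.F2 * P.Q + P.M.Ne' * P.Q)) (fun s _ => PrG_or
      (PrG_exists (K := K) (Mk := Mk) (range (P.pq 0 ^ P.z 0) ×ˢ range (P.pq 1 ^ P.z 1))
        (fun ab _ => hE1 s ab.1 ab.2)) (hE2 s))
  refine PrG_mono ?_ ?_ hU
  · rintro r _ ⟨s, hs⟩
    set w := ext K r with hw
    have hHne : (P.H w s).Nonempty := by
      rw [← Finset.card_pos]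
      exact lt_of_le_of_lt (Nat.zero_le _) hs
    have hsS : s < P.M.Ne + P.F2 * P.Q + P.M.Ne' * P.Q := by
      obtain ⟨l, hl⟩ := hHne
      obtain ⟨c, hc⟩ := SP.mem_H.1 hl
      have e1 := hc.lt
      have e2 := hc.lt2
      have e3 := hc.lt'
      have e4 := hc.sum
      simp only at e1 e2 e3 e4
      omega
    refine ⟨s, mem_range.2 hsS, ?_⟩
    by_contra hcon
    obtain ⟨hn1, hn2⟩ := not_or.1 hcon
    -- the codes of a label
    have hex : ∀ l ∈ P.H w s, ∃ c, Gd P w univ univ s (l, c) := fun l hl => SP.mem_H.1 hl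
    choose! co hco using hex
    -- number of labels in conflict at the main level
    have hmain : ∀ t : Lb ι, ∀ F ⊆ P.H w s,
        (∀ l ∈ F, (∀ j ∈ P.M.P, l.1.1 j = t.1.1 j) ∨ ∀ j ∈ P.M.P, l.1.2 j = t.1.2 j) →
        F.card ≤ 2 * (P.M.C * P.CQ) := by
      intro t F hF hFt
      set Z1 := (P.M.prs hP.m w P.M.c' s).filter (fun z => ∀ j ∈ P.M.P, z.1 j = t.1.1 j)
      set Z2 := (P.M.prs hP.m w P.M.c' s).filter (fun z => ∀ j ∈ P.M.P, z.2 j = t.1.2 j)
      have hc1 := (hD hP.m w s t.1.1).1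
      have hc2 := (hD hP.m w s t.1.2).2
      have hsub : F ⊆ F.filter (fun l => l.1 ∈ Z1) ∪ F.filter (fun l => l.1 ∈ Z2) := by
        intro l hl
        have hp := H_prs hP (hF hl)
        rw [mem_union]
        rcases hFt l hl with h3 | h3
        · exact Or.inl (mem_filter.2 ⟨hl, mem_filter.2 ⟨hp, h3⟩⟩)
        · exact Or.inr (mem_filter.2 ⟨hl, mem_filter.2 ⟨hp, h3⟩⟩)
      calc F.card ≤ _ := Finset.card_le_card hsub
        _ ≤ (F.filter (fun l => l.1 ∈ Z1)).card + (F.filter (fun l => l.1 ∈ Z2)).card :=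
            Finset.card_union_le _ _
        _ ≤ Z1.card * P.CQ + Z2.card * P.CQ := by
            refine Nat.add_le_add (over_main hP w s Z1 _ ?_) (over_main hP w s Z2 _ ?_)
            · intro l hl
              exact ⟨hF (mem_filter.1 hl).1, (mem_filter.1 hl).2⟩
            · intro l hl
              exact ⟨hF (mem_filter.1 hl).1, (mem_filter.1 hl).2⟩
        _ ≤ P.M.C * P.CQ + P.M.C * P.CQ :=
            Nat.add_le_add (Nat.mul_le_mul_right _ hc1) (Nat.mul_le_mul_right _ hc2)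
        _ = 2 * (P.M.C * P.CQ) := by ring
    -- labels with given families 0 and 1
    have hkap : ∀ a b : ℕ, ∀ F ⊆ P.H w s, (∀ l ∈ F, l.2.1 0 = a ∧ l.2.1 1 = b) →
        F.card ≤ 2 * (P.M.C * P.CQ) * m1 := by
      intro a b F hF hFab
      by_contra hlt
      push Not at hlt
      obtain ⟨T, hT, hTc, hTf⟩ := exists_indep F
        (fun t l => (∀ j ∈ P.M.P, l.1.1 j = t.1.1 j) ∨ ∀ j ∈ P.M.P, l.1.2 j = t.1.2 j)
        (fun x y hxy => by
          rcases hxy with h | h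
          · exact Or.inl (fun j hj => (h j hj).symm)
          · exact Or.inr (fun j hj => (h j hj).symm))
        (2 * (P.M.C * P.CQ)) m1 (by
          intro t _ G hG hGt
          refine hmain t G (hG.trans hF) (fun l hl => ?_)
          rcases hGt l hl with rfl | h3
          · exact Or.inl (fun _ _ => rfl)
          · exact h3) hlt
      have hTH : ∀ l ∈ T, l ∈ P.H w s := fun l hl => hF (hT hl)
      obtain ⟨l0, hl0⟩ : T.Nonempty := by
        rw [← Finset.card_pos, hTc]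
        exact Nat.succ_pos _
      have hlt0 : ∀ j, l0.2.1 j < P.pq j ^ P.z j := by
        intro j
        have hg := hco l0 (hTH l0 hl0)
        obtain ⟨hpr, -, hsq⟩ := hP.adm _ hg.y j
        exact lt_of_le_of_lt (Nat.le_self_pow (by norm_num) _) hsq
      have hab0 := hFab l0 (hT hl0)
      refine hn1 ⟨(a, b), mem_product.2 ⟨mem_range.2 ?_, mem_range.2 ?_⟩,
        T.image (fun l => (l, co l)), ?_, ?_, ?_⟩
      · rw [← hab0.1]
        exact hlt0 0
      · rw [← hab0.2]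
        exact hlt0 1
      · rw [Finset.card_image_of_injective _ (fun x y hxy => congrArg Prod.fst hxy), hTc]
      · intro d hd
        obtain ⟨l, hl, rfl⟩ := mem_image.1 hd
        exact ⟨hco l (hTH l hl), hFab l (hT hl)⟩
      · intro d hd d' hd' hdd
        obtain ⟨l, hl, rfl⟩ := mem_image.1 hd
        obtain ⟨l', hl', rfl⟩ := mem_image.1 hd'
        have hne : l ≠ l' := fun h => hdd (by rw [h])
        have hf := hTf l hl l' hl' hne
        push Not at hf
        obtain ⟨⟨j, hj, h3⟩, j', hj', h4⟩ := hf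
        refine ⟨⟨j, hj, fun he => h3 he.symm⟩, ⟨j', hj', fun he => h4 he.symm⟩, ?_⟩
        rw [compl_univ3]
        intro i hi
        exact absurd hi (notMem_empty i)
    -- the second extraction
    obtain ⟨T, hT, hTc, hTf⟩ := exists_indep (P.H w s)
      (fun t l => ((∀ j ∈ P.M.P, l.1.1 j = t.1.1 j) ∨ ∀ j ∈ P.M.P, l.1.2 j = t.1.2 j) ∨
        (l.2.1 0 = t.2.1 0 ∧ l.2.1 1 = t.2.1 1))
      (fun x y hxy => by
        rcases hxy with (h | h) | h
        · exact Or.inl (Or.inl (fun j hj => (h j hj).symm))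
        · exact Or.inl (Or.inr (fun j hj => (h j hj).symm))
        · exact Or.inr ⟨h.1.symm, h.2.symm⟩)
      (2 * (P.M.C * P.CQ) * (m1 + 1)) m (by
        intro t _ F hF hFt
        have hsub : F ⊆ F.filter (fun l => (∀ j ∈ P.M.P, l.1.1 j = t.1.1 j) ∨
            ∀ j ∈ P.M.P, l.1.2 j = t.1.2 j) ∪
            F.filter (fun l => l.2.1 0 = t.2.1 0 ∧ l.2.1 1 = t.2.1 1) := by
          intro l hl
          rw [mem_union]
          rcases hFt l hl with rfl | h3 | h3
          · exact Or.inl (mem_filter.2 ⟨hl, Or.inl (fun _ _ => rfl)⟩)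
          · exact Or.inl (mem_filter.2 ⟨hl, h3⟩)
          · exact Or.inr (mem_filter.2 ⟨hl, h3⟩)
        calc F.card ≤ _ := Finset.card_le_card hsub
          _ ≤ _ := Finset.card_union_le _ _
          _ ≤ 2 * (P.M.C * P.CQ) + 2 * (P.M.C * P.CQ) * m1 := by
              refine Nat.add_le_add (hmain t _ ((Finset.filter_subset _ _).trans hF) ?_)
                (hkap (t.2.1 0) (t.2.1 1) _ ((Finset.filter_subset _ _).trans hF) ?_)
              · intro l hl
                exact (mem_filter.1 hl).2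
              · intro l hl
                exact (mem_filter.1 hl).2
          _ = 2 * (P.M.C * P.CQ) * (m1 + 1) := by ring) hs
    have hTH : ∀ l ∈ T, l ∈ P.H w s := fun l hl => hT hl
    refine hn2 ⟨T.image (fun l => (l, co l)), ?_, ?_, ?_⟩
    · rw [Finset.card_image_of_injective _ (fun x y hxy => congrArg Prod.fst hxy), hTc]
    · intro d hd
      obtain ⟨l, hl, rfl⟩ := mem_image.1 hd
      exact ⟨hco l (hTH l hl), trivial⟩
    · intro d hd d' hd' hdd
      obtain ⟨l, hl, rfl⟩ := mem_image.1 hd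
      obtain ⟨l', hl', rfl⟩ := mem_image.1 hd'
      have hne : l ≠ l' := fun h => hdd (by rw [h])
      have hf := hTf l hl l' hl' hne
      push Not at hf
      obtain ⟨⟨⟨j, hj, h3⟩, j', hj', h4⟩, h5⟩ := hf
      refine ⟨⟨j, hj, fun he => h3 he.symm⟩, ⟨j', hj', fun he => h4 he.symm⟩, ?_⟩
      rw [compl01]
      intro i hi
      rw [mem_singleton] at hi
      subst hi
      by_cases h6 : l.2.1 0 = l'.2.1 0
      · exact ⟨1, by simp [rk3], fun he => h5 h6.symm he.symm⟩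
      · exact ⟨0, by simp [rk3], h6⟩
  · rw [Finset.sum_const, card_range, nsmul_eq_mul, Finset.sum_const, card_product, card_range,
      card_range, nsmul_eq_mul, hMM1, hMM2]
    simp only [Nat.cast_one, mul_one]
    exact le_rfl

end Pool.Agent.Helper98.T5
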