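import Pool.Agent.Helper98.T5.SplitCount

/-!
# T5, a pair of states on both sides of a split: probabilities
-/

namespace Pool.Agent.Helper98.T5

open Finset Pool.Agent.Helper27.T4 Pool.Agent.Helper22.HW Pool.Agent.Helper22.SL
  Pool.Agent.Helper3.T5 Pool.Agent.Helper3.T4

variable {ι κ : Type*} [Fintype ι] [DecidableEq ι] {P : SP ι κ} {Mk : κ → ℕ}

omit [Fintype ι] [DecidableEq ι] in
/-- admissible vectors of the split level which agree outside `R2` -/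
theorem card_adm (hP : Adm P.pq P.z P.Y) (R2 : Finset (Fin 3))
    (F : Finset (Fin 3 → ℕ)) (hF : ∀ y ∈ F, y ∈ P.Y)
    (h : ∀ y ∈ F, ∀ y' ∈ F, ∀ j ∉ R2, y j = y' j) : F.card ^ 2 ≤ MM P.pq P.z R2 := by
  classical
  rcases F.eq_empty_or_nonempty with h0 | ⟨y0, hy0⟩
  · rw [h0]
    simp
  have h1 : F.card ≤ ∏ j ∈ R2, Nat.sqrt (P.pq j ^ P.z j) := by
    have hsub : F ⊆ Fintype.piFinset (fun j : Fin 3 => if j ∈ R2 then
        (range (Nat.sqrt (P.pq j ^ P.z j) + 1)).erase 0 else {y0 j}) := by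
      intro y hy
      rw [Fintype.mem_piFinset]
      intro j
      split_ifs with hj
      · have ha := hP y (hF y hy) j
        rw [mem_erase, mem_range, Nat.lt_succ_iff, Nat.le_sqrt, ← pow_two]
        exact ⟨ha.1.ne_zero, ha.2.2.le⟩
      · rw [mem_singleton]
        exact h y hy y0 hy0 j hj
    refine (Finset.card_le_card hsub).trans (le_of_eq ?_)
    rw [Fintype.card_piFinset, ← Finset.prod_subset (Finset.subset_univ R2)]
    · refine Finset.prod_congr rfl (fun j hj => ?_)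
      rw [if_pos hj, Finset.card_erase_of_mem (by simp), Finset.card_range]
      rfl
    · intro j _ hj
      rw [if_neg hj, Finset.card_singleton]
  calc F.card ^ 2 ≤ (∏ j ∈ R2, Nat.sqrt (P.pq j ^ P.z j)) ^ 2 := Nat.pow_le_pow_left h1 2
    _ = ∏ j ∈ R2, Nat.sqrt (P.pq j ^ P.z j) ^ 2 := (Finset.prod_pow _ _ _).symm
    _ ≤ MM P.pq P.z R2 := Finset.prod_le_prod' (fun j _ => Nat.sqrt_le' _)

/-- the candidates -/
noncomputable def SP.cand (P : SP ι κ) (w : κ → ℕ) (J : Finset (Fin 3)) (s : ℕ)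
    (pc : (Fin 3 → ℕ) → Prop) : Finset (Lb ι × (ℕ × ℕ × ℕ)) :=
  open Classical in
  P.box.filter (fun d => Gd P w (univ.erase P.M.R) J s d ∧ pc d.1.2.1)

theorem mem_cand {w : κ → ℕ} {J : Finset (Fin 3)} {s : ℕ} {pc : (Fin 3 → ℕ) → Prop}
    {d : Lb ι × (ℕ × ℕ × ℕ)} (h : d ∈ P.cand w J s pc) :
    Gd P w (univ.erase P.M.R) J s d ∧ pc d.1.2.1 := by
  classical
  unfold SP.cand at h
  exact (mem_filter.1 h).2

variable [DecidableEq κ]

/-- the fresh keys -/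
def SP.fk (P : SP ι κ) (J : Finset (Fin 3)) (d : Lb ι × (ℕ × ℕ × ℕ)) : Finset κ :=
  {P.M.key P.M.R d.1.1.1, P.M.key' P.M.R d.1.1.2} ∪ Jᶜ.image (fun j => P.key2 d.1.1.1 j d.1.2.1)

open Classical in
/-- the values of the fresh keys -/
noncomputable def SP.vl (P : SP ι κ) (d : Lb ι × (ℕ × ℕ × ℕ)) (k : κ) : ℕ :=
  if k = P.M.key P.M.R d.1.1.1 then
    (((d.2.1 : ℕ) : ZMod (P.M.p P.M.R ^ P.M.e P.M.R)) -
      Lg (P.M.p P.M.R) (P.M.e P.M.R) (d.1.1.1 P.M.R)).val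
  else if k = P.M.key' P.M.R d.1.1.2 then
    (((d.2.2.2 : ℕ) : ZMod (P.M.p P.M.R ^ P.M.e' P.M.R)) -
      Lg (P.M.p P.M.R) (P.M.e' P.M.R) (d.1.1.2 P.M.R)).val
  else if h : ∃ j, P.key2 d.1.1.1 j d.1.2.1 = k then
    (((d.2.2.1 : ℕ) : ZMod (P.pq h.choose ^ P.z h.choose)) -
      Lg (P.pq h.choose) (P.z h.choose) (d.1.2.1 h.choose)).val
  else 0

omit [DecidableEq κ] in
theorem SP.Ok.eR (hP : P.Ok Mk) : P.M.e' P.M.R = P.M.e P.M.R := by
  have h1 := hP.m.statR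
  have h2 := hP.m.ce' P.M.R
  have h3 := hP.m.ee P.M.R
  omega

/-- a hit forces the values of its keys -/
theorem vl_hit (hP : P.Ok Mk) {w : κ → ℕ} (hw : ∀ k, w k < Mk k) {s : ℕ}
    {d : Lb ι × (ℕ × ℕ × ℕ)} (h : Gd P w univ univ s d) (J : Finset (Fin 3)) {k : κ}
    (hk : k ∈ P.fk J d) : w k = P.vl d k := by
  have hval : ∀ (n : ℕ) (c a : ZMod n) (v : ℕ), v < n → c = a + (v : ZMod n) →
      v = (c - a).val := by
    intro n c a v hv hc
    rw [hc, add_sub_cancel_left]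
    exact (ZMod.val_natCast_of_lt hv).symm
  unfold SP.vl
  split_ifs with h1 h2 h3
  · rw [h1]
    refine hval _ _ _ _ ?_ (h.res _ (mem_univ _))
    have := hw (P.M.key P.M.R d.1.1.1)
    rw [hP.m.size _ h.x] at this
    exact this
  · rw [h2]
    refine hval _ _ _ _ ?_ (h.res' _ (mem_univ _))
    have := hw (P.M.key' P.M.R d.1.1.2)
    rw [hP.m.size' _ h.x'] at this
    rw [hP.eR]
    exact this
  · have h4 := h3.choose_spec
    have h6 : ∀ j, P.key2 d.1.1.1 j d.1.2.1 = k → w (P.key2 d.1.1.1 j d.1.2.1) =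
        (((d.2.2.1 : ℕ) : ZMod (P.pq j ^ P.z j)) - Lg (P.pq j) (P.z j) (d.1.2.1 j)).val := by
      intro j _
      refine hval _ _ _ _ ?_ (h.res2 _ (mem_univ _))
      have := hw (P.key2 d.1.1.1 j d.1.2.1)
      have hs := (hP.s d.1.1.1).size j d.1.2.1
      have hs' : Mk (P.key2 d.1.1.1 j d.1.2.1) = P.pq j ^ P.z j := hs
      rw [hs'] at this
      exact this
    exact (congrArg w h4.symm).trans (h6 _ h4)
  · exfalso
    unfold SP.fk at hk
    rw [mem_union, mem_insert, mem_singleton, mem_image] at hk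
    rcases hk with (hk | hk) | ⟨j, _, hk⟩
    · exact h1 hk
    · exact h2 hk
    · exact h3 ⟨j, hk⟩

omit [DecidableEq κ] in
theorem SP.Ok.key2_inj (hP : P.Ok Mk) {x x' : ι → ℕ} {i i' : Fin 3} {y y' : Fin 3 → ℕ}
    (h : P.key2 x i y = P.key2 x' i' y') : i = i' ∧ ∀ j, rk3 j < rk3 i → y j = y' j :=
  hP.sinj x x' i i' y y' h

/-- the total size of the fresh keys -/
theorem prod_fk (hP : P.Ok Mk) (J : Finset (Fin 3)) {d : Lb ι × (ℕ × ℕ × ℕ)}
    (hx : d.1.1.1 ∈ P.M.X) (hx' : d.1.1.2 ∈ P.M.X') :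
    ∏ k ∈ P.fk J d, ((Mk k : ℝ))⁻¹ =
      ((P.M.q : ℝ) * P.M.q * (MM P.pq P.z Jᶜ : ℕ))⁻¹ := by
  classical
  unfold SP.fk
  rw [Finset.prod_union, Finset.prod_pair, Finset.prod_image]
  · rw [hP.m.size _ hx, hP.m.size' _ hx', mul_inv, mul_inv, MM, Nat.cast_prod,
      ← Finset.prod_inv_distrib]
    congr 1
    refine Finset.prod_congr rfl (fun j _ => ?_)
    have hs' : Mk (P.key2 d.1.1.1 j d.1.2.1) = P.pq j ^ P.z j := (hP.s _).size j d.1.2.1
    rw [hs']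
  · intro j _ j' _ he
    exact (hP.key2_inj he).1
  · exact hP.m.mix _ _ _ _
  · rw [Finset.disjoint_left]
    intro k hk hk'
    rw [mem_image] at hk'
    obtain ⟨j, _, rfl⟩ := hk'
    rw [mem_insert, mem_singleton] at hk
    rcases hk with hk | hk
    · exact (hP.dis _ _ _ _ _).1 hk
    · exact (hP.dis _ _ _ _ _).2 hk

/-- different main vectors (on both sides) and different vectors of the split level give disjoint
sets of fresh keys -/
theorem disj_fk (hP : P.Ok Mk) (J : Finset (Fin 3)) {d d' : Lb ι × (ℕ × ℕ × ℕ)}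
    (hx : d.1.1.1 ∈ P.M.X) (hy : d'.1.1.1 ∈ P.M.X) (hx' : d.1.1.2 ∈ P.M.X')
    (hy' : d'.1.1.2 ∈ P.M.X')
    (h1 : ∃ j ∈ P.M.P, d.1.1.1 j ≠ d'.1.1.1 j) (h2 : ∃ j ∈ P.M.P, d.1.1.2 j ≠ d'.1.1.2 j)
    (h3 : ∀ i ∈ Jᶜ, ∃ j, rk3 j < rk3 i ∧ d.1.2.1 j ≠ d'.1.2.1 j) :
    Disjoint (P.fk J d) (P.fk J d') := by
  rw [Finset.disjoint_left]
  intro k hk hk'
  unfold SP.fk at hk hk'
  rw [mem_union, mem_insert, mem_singleton, mem_image] at hk hk'
  rcases hk with (hk | hk) | ⟨i, hi, hk⟩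
  · rcases hk' with (hk' | hk') | ⟨i', _, hk'⟩
    · obtain ⟨j, hj, hne⟩ := h1
      exact hne (hP.m.sep _ hx _ hy (hk.symm.trans hk') j (hP.m.PR hj))
    · exact hP.m.mix _ _ _ _ (hk.symm.trans hk')
    · exact (hP.dis _ _ _ _ _).1 (hk'.trans hk)
  · rcases hk' with (hk' | hk') | ⟨i', _, hk'⟩
    · exact hP.m.mix _ _ _ _ (hk'.symm.trans hk)
    · obtain ⟨j, hj, hne⟩ := h2
      exact hne (hP.m.sep' _ hx' _ hy' (hk.symm.trans hk') j (hP.m.PR' hj))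
    · exact (hP.dis _ _ _ _ _).2 (hk'.trans hk)
  · rcases hk' with (hk' | hk') | ⟨i', _, hk'⟩
    · exact (hP.dis _ _ _ _ _).1 (hk.trans hk')
    · exact (hP.dis _ _ _ _ _).2 (hk.trans hk')
    · obtain ⟨hii, hj⟩ := hP.key2_inj (hk.trans hk'.symm)
      obtain ⟨j, hj0, hne⟩ := h3 i hi
      exact hne (hj j hj0)

/-- the fresh keys in `K` -/
noncomputable def SP.K1 (P : SP ι κ) (J : Finset (Fin 3)) : Finset κ :=
  P.M.X.image (fun x => P.M.key P.M.R x) ∪ P.M.X'.image (fun x => P.M.key' P.M.R x) ∪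
    (P.M.X ×ˢ (P.Y ×ˢ Jᶜ)).image (fun q => P.key2 q.1 q.2.2 q.2.1)

omit [Fintype ι] [DecidableEq ι] in
theorem fk_sub (J : Finset (Fin 3)) {d : Lb ι × (ℕ × ℕ × ℕ)}
    (hx : d.1.1.1 ∈ P.M.X) (hx' : d.1.1.2 ∈ P.M.X') (hy : d.1.2.1 ∈ P.Y) :
    P.fk J d ⊆ P.K1 J := by
  intro k hk
  unfold SP.fk at hk
  unfold SP.K1
  rw [mem_union, mem_insert, mem_singleton, mem_image] at hk
  rw [mem_union, mem_union, mem_image, mem_image, mem_image]
  rcases hk with (rfl | rfl) | ⟨i, hi, rfl⟩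
  · exact Or.inl (Or.inl ⟨_, hx, rfl⟩)
  · exact Or.inl (Or.inr ⟨_, hx', rfl⟩)
  · exact Or.inr ⟨(d.1.1.1, d.1.2.1, i), mem_product.2 ⟨hx, mem_product.2 ⟨hy, hi⟩⟩, rfl⟩

/-- the candidates do not depend on the fresh keys -/
theorem cand_dep (hP : P.Ok Mk) (J : Finset (Fin 3)) (s : ℕ) (pc : (Fin 3 → ℕ) → Prop)
    (w w' : κ → ℕ) (h : ∀ k, k ∉ P.K1 J → w k = w' k) : P.cand w J s pc = P.cand w' J s pc := by
  classical
  have hM : ∀ i x, i ≠ P.M.R → w (P.M.key i x) = w' (P.M.key i x) := by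
    intro i x hi
    apply h
    unfold SP.K1
    rw [mem_union, mem_union, mem_image, mem_image, mem_image]
    rintro ((⟨y, _, hy⟩ | ⟨y, _, hy⟩) | ⟨y, _, hy⟩)
    · exact (hP.m.new i x y hi).1 hy.symm
    · exact hP.m.mix _ _ _ _ hy.symm
    · exact (hP.dis _ _ _ _ _).1 hy
  have hM' : ∀ i x, i ≠ P.M.R → w (P.M.key' i x) = w' (P.M.key' i x) := by
    intro i x hi
    apply h
    unfold SP.K1
    rw [mem_union, mem_union, mem_image, mem_image, mem_image]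
    rintro ((⟨y, _, hy⟩ | ⟨y, _, hy⟩) | ⟨y, _, hy⟩)
    · exact hP.m.mix _ _ _ _ hy
    · exact (hP.m.new i x y hi).2 hy.symm
    · exact (hP.dis _ _ _ _ _).2 hy
  have h3 : ∀ j, w (P.key3 j) = w' (P.key3 j) := by
    intro j
    apply h
    unfold SP.K1
    rw [mem_union, mem_union, mem_image, mem_image, mem_image]
    rintro ((⟨x, _, hx⟩ | ⟨x, _, hx⟩) | ⟨⟨x1, x, i⟩, hxi, hx⟩)
    · exact (hP.dis3 j x 0 0).2.1 hx.symm
    · exact (hP.dis3 j x 0 0).2.2 hx.symm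
    · exact (hP.dis3 j _ _ _).1 hx.symm
  have hY : ∀ j ∈ J, ∀ x0 y, w (P.key2 x0 j y) = w' (P.key2 x0 j y) := by
    intro j hj x0 y
    apply h
    unfold SP.K1
    rw [mem_union, mem_union, mem_image, mem_image, mem_image]
    rintro ((⟨x, _, hx⟩ | ⟨x, _, hx⟩) | ⟨⟨x1, x, i⟩, hxi, hx⟩)
    · exact (hP.dis _ _ _ _ _).1 hx.symm
    · exact (hP.dis _ _ _ _ _).2 hx.symm
    · have hij := (hP.key2_inj hx).1
      simp only at hij
      rw [mem_product, mem_product] at hxi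
      have := hxi.2.2
      rw [hij] at this
      exact (mem_compl.1 this) hj
  unfold SP.cand
  apply Finset.filter_congr
  intro d _
  constructor
  · rintro ⟨hg, hp⟩
    refine ⟨⟨hg.x, hg.x', hg.y, hg.y', hg.lt, hg.lt2, hg.lt', hg.dvd, ?_, ?_, ?_,
      fun j => by rw [hg.resq j, h3 j], hg.sum⟩, hp⟩
    · intro i hi
      rw [hg.res i hi]
      unfold MP.ρ
      rw [hM i _ (mem_erase.1 hi).1]
    · intro i hi
      rw [hg.res' i hi]
      unfold MP.ρ'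
      rw [hM' i _ (mem_erase.1 hi).1]
    · intro j hj
      rw [hg.res2 j hj, hY j hj]
  · rintro ⟨hg, hp⟩
    refine ⟨⟨hg.x, hg.x', hg.y, hg.y', hg.lt, hg.lt2, hg.lt', hg.dvd, ?_, ?_, ?_,
      fun j => by rw [hg.resq j, h3 j], hg.sum⟩, hp⟩
    · intro i hi
      rw [hg.res i hi]
      unfold MP.ρ
      rw [hM i _ (mem_erase.1 hi).1]
    · intro i hi
      rw [hg.res' i hi]
      unfold MP.ρ'
      rw [hM' i _ (mem_erase.1 hi).1]
    · intro j hj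
      rw [hg.res2 j hj, hY j hj]

/-- **Probability of `m + 1` labels with the same sum** whose main vectors differ pairwise on both
sides, and whose vectors of the split level have different initial parts, if `J` is not
everything. -/
theorem pr_event (hP : P.Ok Mk) (hMk : ∀ k, 0 < Mk k) {K : Finset κ} (J : Finset (Fin 3))
    (hK : P.K1 J ⊆ K) (s : ℕ) (pc : (Fin 3 → ℕ) → Prop) {ρ : ℝ} (hρ : 0 ≤ ρ)
    (hcard : ∀ w, ((P.cand w J s pc).card : ℝ) ≤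
      ρ * ((P.M.q : ℝ) * P.M.q * (MM P.pq P.z Jᶜ : ℕ))) (m : ℕ) :
    PrG Mk K (fun w => ∃ T : Finset (Lb ι × (ℕ × ℕ × ℕ)), T.card = m + 1 ∧
      (∀ d ∈ T, Gd P w univ univ s d ∧ pc d.1.2.1) ∧
      (∀ d ∈ T, ∀ d' ∈ T, d ≠ d' → (∃ j ∈ P.M.P, d.1.1.1 j ≠ d'.1.1.1 j) ∧
        (∃ j ∈ P.M.P, d.1.1.2 j ≠ d'.1.1.2 j) ∧
        ∀ i ∈ Jᶜ, ∃ j, rk3 j < rk3 i ∧ d.1.2.1 j ≠ d'.1.2.1 j))
      (((P.M.q : ℝ) * P.M.q * (MM P.pq P.z Jᶜ : ℕ)) * ρ ^ (m + 1)) := by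
  classical
  have hq0 : 0 < P.M.q := pow_pos (hP.m.prime _).pos _
  have hΓ : (0 : ℝ) < (P.M.q : ℝ) * P.M.q * (MM P.pq P.z Jᶜ : ℕ) := by
    have h1 : (0 : ℝ) < P.M.q := by exact_mod_cast hq0
    have h2 : (0 : ℝ) < (MM P.pq P.z Jᶜ : ℕ) := by exact_mod_cast MM_pos hP.prime _ _
    positivity
  have hmem : ∀ w, ∀ t ∈ P.cand w J s pc, Gd P w (univ.erase P.M.R) J s t ∧ pc t.1.2.1 := by
    intro w t ht
    unfold SP.cand at ht
    exact (mem_filter.1 ht).2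
  refine PrG_mono ?_ le_rfl (pr_tuple hMk hK (fun w => P.cand w J s pc)
    (fun w w' h => cand_dep hP J s pc w w' h) (fun d => P.fk J d)
    (fun w t ht => fk_sub J (hmem w t ht).1.x (hmem w t ht).1.x' (hmem w t ht).1.y)
    (fun d k => P.vl d k) hρ hΓ
    (fun w t ht => (prod_fk hP J (hmem w t ht).1.x (hmem w t ht).1.x').le) hcard m)
  rintro r hr ⟨T, hTc, hT, hTd⟩
  have hw : ∀ k, ext K r k < Mk k := fun k => ext_lt hMk hr k
  refine ⟨T, ?_, hTc, ?_, ?_⟩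
  · intro d hd
    have h := (hT d hd).1
    unfold SP.cand
    rw [mem_filter]
    refine ⟨h.mem_box, ⟨h.x, h.x', h.y, h.y', h.lt, h.lt2, h.lt', h.dvd,
      fun i _ => h.res i (mem_univ i), fun i _ => h.res' i (mem_univ i),
      fun j _ => h.res2 j (mem_univ j), h.resq, h.sum⟩, (hT d hd).2⟩
  · intro d hd k hk
    exact vl_hit hP hw (hT d hd).1 J hk
  · intro d hd d' hd' hdd
    have h := (hT d hd).1
    have h' := (hT d' hd').1
    obtain ⟨h1, h2, h3⟩ := hTd d hd d' hd' hdd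
    exact disj_fk hP J h.x h'.x h.x' h'.x' h1 h2 h3

end Pool.Agent.Helper98.T5
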